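import Pool.Agent.W_448so_h39.FG
import Pool.Agent.W_448so_h64.SoL

/-!
# S9 (MP_448cb3_co): the data of a component for the second order theorem
-/

namespace Pool.Agent.GaussPoset.Win

set_option linter.unusedSectionVars false

open Finset
open Pool.Agent.GaussPoset.Win.I2 (lS uS mem_lS mem_uS)

universe u

variable {P : Type u} [Fintype P] [PartialOrder P] [DecidableEq P] {r i j : ℕ} {t : P}
  {lo hi : ℕ → ℕ} {x : ℕ → ℕ → P} {S : Finset P} {psi : P → P}

/-- common upper covers as an intersection -/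
lemma card_uc_inter (v v' : P) : (uc v ∩ uc v').card = ucv v v' := by
  classical
  unfold ucv
  congr 1
  ext y
  simp only [mem_inter, mem_uc, mem_filter, mem_univ, true_and]

lemma card_dc_inter (v v' : P) : (dc v ∩ dc v').card = dcv v v' := by
  classical
  unfold dcv
  congr 1
  ext y
  simp only [mem_inter, mem_dc, mem_filter, mem_univ, true_and]

/-- two elements of a good level have at most one common upper cover -/
lemma ucv_le_one (h : GoodTo P r j) {v v' : P} (hv : lev v ≤ j) (hne : v ≠ v')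
    (hl : lev v = lev v') : ucv v v' ≤ 1 := by
  by_contra hcon
  push Not at hcon
  obtain ⟨w, hw, hw'⟩ := StA_of_ucv (v := v) (v' := v') (by omega)
  obtain ⟨t, ht, ht2⟩ := exists_above' (x := w) (j := 0) (Nat.zero_le _)
  obtain ⟨lo, hi, x, C⟩ := comp_exists h ht2
  obtain ⟨a, a1, a2, a3⟩ := C.surj (lev v) hv v rfl (hw.le.trans ht)
  obtain ⟨b, b1, b2, b3⟩ := C.surj (lev v) hv v' hl.symm (hw'.le.trans ht)
  have hab : a ≠ b := fun he => hne (by rw [← a3, ← b3, he])
  have := C.ucv_eq h ht2 hv a1 a2 b1 b2 hab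
  rw [a3, b3] at this
  rw [this] at hcon
  split_ifs at hcon <;> omega

/-- two common upper covers coincide -/
lemma ucv_uniq (h : GoodTo P r j) {v v' w w' : P} (hv : lev v ≤ j) (hne : v ≠ v')
    (hl : lev v = lev v') (h1 : v ⋖ w) (h2 : v' ⋖ w) (h3 : v ⋖ w') (h4 : v' ⋖ w') : w = w' := by
  have h5 := ucv_le_one h hv hne hl
  rw [← card_uc_inter, card_le_one] at h5
  exact h5 w (mem_inter.2 ⟨mem_uc.2 h1, mem_uc.2 h2⟩) w' (mem_inter.2 ⟨mem_uc.2 h3, mem_uc.2 h4⟩)

/-- two common lower covers coincide -/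
lemma dcv_uniq (h : GoodTo P r j) {v v' w w' : P} (hv : lev v < j) (hne : v ≠ v')
    (hl : lev v = lev v') (h1 : w ⋖ v) (h2 : w ⋖ v') (h3 : w' ⋖ v) (h4 : w' ⋖ v') : w = w' := by
  have h5 := ucv_le_one h hv.le hne hl
  rw [h.good (lev v) hv v v' rfl hl.symm hne, ← card_dc_inter, card_le_one] at h5
  exact h5 w (mem_inter.2 ⟨mem_dc.2 h1, mem_dc.2 h2⟩) w' (mem_inter.2 ⟨mem_dc.2 h3, mem_dc.2 h4⟩)

/-- the near level condition below the window -/
theorem nll_of (h : GoodTo P r (i + 1)) (hi1 : 1 ≤ i) : SO.NLL P i := by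
  intro w _ htw v hv v' hv' hne
  unfold SO.tL at htw
  rw [mem_uc] at hv hv'
  rcases (near_level' h hi1).1 w v v' (by omega) hv hv' hne with g | ⟨g1, g2, -⟩
  · left
    rw [card_uc_inter]
    exact g
  · exact Or.inr ⟨g1, g2⟩

/-- the near level condition above the window -/
theorem nlu_of (h : GoodTo P r (i + 1)) : SO.NLU P i := by
  intro w _ htw v hv v' hv' hne
  unfold SO.tU at htw
  rw [mem_dc] at hv hv'
  have l1 := lev_cov h.H hv
  have l2 := lev_cov h.H hv'
  left
  have h1 := ucv_le_one h (v := v) (v' := v') (by omega) hne (by omega)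
  have h2 := StA_ucv_pos hv hv'
  rw [card_dc_inter, ← h.good (lev v) (by omega) v v' rfl (by omega) hne]
  omega

/-- the pair of sites of a pendant determines the double above the window -/
lemma psi_eq_of (h : GoodTo P r (i + 1)) (hM : Mat P i ∅ psi) {y u : P} (hly : lev y = i + 1)
    (hy2 : (uc y).card = 2) (hdu : dc u = uc y) : u = psi y := by
  have hdb : y ∈ dbL P i := by
    unfold dbL
    rw [mem_filter]
    exact ⟨mem_univ _, hly, hy2⟩
  obtain ⟨-, g2⟩ := hM.low y hdb (notMem_empty _)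
  obtain ⟨v, v', hne, hv⟩ := card_eq_two.1 hy2
  have m1 : v ∈ uc y := by rw [hv]; exact mem_insert_self _ _
  have m2 : v' ∈ uc y := by rw [hv]; exact mem_insert_of_mem (mem_singleton_self _)
  have l1 := lev_uc h.H m1
  have l2 := lev_uc h.H m2
  exact ucv_uniq h (v := v) (v' := v') (by omega) hne (by omega)
    (mem_dc.1 (by rw [hdu]; exact m1)) (mem_dc.1 (by rw [hdu]; exact m2))
    (mem_dc.1 (by rw [g2]; exact m1)) (mem_dc.1 (by rw [g2]; exact m2))

lemma psi_eq_of' (h : GoodTo P r (i + 1)) (hM : Mat P i ∅ psi) {y u : P} (hlu : lev u + 1 = i)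
    (hu2 : (dc u).card = 2) (hdu : uc y = dc u) : y = psi u := by
  have hdb : u ∈ dbU P i := by
    unfold dbU
    rw [mem_filter]
    exact ⟨mem_univ _, hlu, hu2⟩
  obtain ⟨-, g2⟩ := hM.upp u hdb (notMem_empty _)
  obtain ⟨v, v', hne, hv⟩ := card_eq_two.1 hu2
  have m1 : v ∈ dc u := by rw [hv]; exact mem_insert_self _ _
  have m2 : v' ∈ dc u := by rw [hv]; exact mem_insert_of_mem (mem_singleton_self _)
  have l1 := lev_dc h.H m1
  have l2 := lev_dc h.H m2
  exact dcv_uniq h (v := v) (v' := v') (by omega) hne (by omega)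
    (mem_uc.1 (by rw [hdu]; exact m1)) (mem_uc.1 (by rw [hdu]; exact m2))
    (mem_uc.1 (by rw [g2]; exact m1)) (mem_uc.1 (by rw [g2]; exact m2))

/-- a component at the window `i` -/
structure Cm5 (P : Type u) [Fintype P] [PartialOrder P] [DecidableEq P] (r i : ℕ) (t : P)
    (lo hi : ℕ → ℕ) (x : ℕ → ℕ → P) (S : Finset P) : Prop where
  g : GoodTo P r (i + 1)
  i1 : 1 ≤ i
  ht : lev t = 0
  C : Comp P t (i + 1) lo hi x
  part : Part (i + 1) S
  hS : ∀ y, lev y ≤ i + 2 → (y ∈ S ↔ y ≤ t)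

/-- pendants: the edge of the row -/
lemma Cm5.pen_edge (K : Cm5 P r i t lo hi x S) {p y : P} (hp : p ∈ PD P i) (hpt : p ≤ t)
    (hy : uc p = {y}) : ∃ a, lo i < a ∧ a ≤ hi i ∧ y = x (i + 1) a ∧ 1 ≤ (pen (x (i + 1) a)).card ∧
      uc y = {x i (a - 1), x i a} := by
  obtain ⟨hl, hc, w, hw, hw2⟩ := mem_PD.1 hp
  have hwy : w = y := by
    rw [← mem_uc, hy, mem_singleton] at hw
    exact hw
  subst hwy
  have hlw := lev_cov K.g.H hw
  have hwS : w ∈ S := K.part.up ((K.hS p (by omega)).2 hpt) hw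
  have hwt := (K.hS w (by omega)).1 hwS
  obtain ⟨a, a1, a2, rfl⟩ := K.C.surj (i + 1) le_rfl w (by omega) hwt
  have h1 := (K.C.uc_two K.g K.ht (k := i) (by omega) a1 a2).1 hw2
  refine ⟨a, h1.1, h1.2, rfl, ?_, K.C.uc_eq K.g K.ht (by omega) h1.1 h1.2⟩
  exact card_pos.2 ⟨p, mem_pen.2 ⟨hw, hc⟩⟩

/-- the sites of the elements of `PU` -/
lemma Cm5.PU_sites (K : Cm5 P r i t lo hi x S) {p u : P} (hp : p ∈ PU P i) (hpt : p ≤ t)
    (hu : dc p = {u}) : lev u + 1 = i ∧ (dc u).card = 2 ∧ lo i < hi i ∧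
      ((LCO lo hi i ∧ dc u = {x i (lo i), x i (lo i + 1)}) ∨
        (RCO lo hi i ∧ dc u = {x i (hi i - 1), x i (hi i)})) := by
  obtain ⟨hl, hc, w, hw, hw2⟩ := mem_PU.1 hp
  have hwu : w = u := by
    rw [← mem_dc, hu, mem_singleton] at hw
    exact hw
  subst hwu
  have hlw := lev_cov K.g.H hw
  have hs := ClE_stD K.g.H hl hu
  obtain ⟨m, rfl⟩ : ∃ m, i = m + 2 := ⟨i - 2, by omega⟩
  obtain ⟨h1, h2⟩ := K.C.PU_cases K.g K.ht (by omega) hp hpt
  refine ⟨by omega, hw2, by omega, ?_⟩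
  unfold LCO RCO
  rw [show m + 2 - 1 = m + 1 by omega, Nat.add_sub_cancel]
  rcases h2 with ⟨g1, g2, -, g3⟩ | ⟨g1, g2, -, g3⟩
  · left
    exact ⟨⟨by omega, g1, g2, by omega⟩, hs ▸ g3⟩
  · right
    exact ⟨⟨by omega, g1, g2, by omega⟩, hs ▸ g3⟩

/-- the data of a component, energy at most five -/
theorem Cm5.ps5 (K : Cm5 P r i t lo hi x S) (hM : Mat P i ∅ psi) : SO.PS5 r i psi S where
  H := K.g.H
  hi := K.i1
  hi2 := K.g.hr
  hC := K.part
  hM := hM
  nlL := nll_of K.g K.i1
  nlU := nlu_of K.g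
  pd := by
    intro p hp p' hp' h1 h2
    obtain ⟨hc1, hc2⟩ := indiv_21 K.g i le_rfl t K.ht
    have hc3 : (PDt i t).card ≤ 1 := by omega
    exact card_le_one.1 hc3 p (mem_PDt.2 ⟨h1, (K.hS p (lev_PD h1).1.le).1 hp⟩) p'
      (mem_PDt.2 ⟨h2, (K.hS p' (lev_PD h2).1.le).1 hp'⟩)
  pu := by
    intro p hp p' hp' h1 h2
    obtain ⟨hc1, hc2⟩ := indiv_21 K.g i le_rfl t K.ht
    have l1 := lev_PU h1
    have l2 := lev_PU h2
    exact card_le_one.1 hc1 p (mem_PUt.2 ⟨h1, (K.hS p (by omega)).1 hp⟩) p'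
      (mem_PUt.2 ⟨h2, (K.hS p' (by omega)).1 hp'⟩)
  ncu := by
    intro w hw w' hw' v v' hl hne h1 h2 _ _
    have m1 : v ⋖ w := by rw [← mem_dc, h1]; exact mem_insert_self _ _
    have m2 : v' ⋖ w := by rw [← mem_dc, h1]; exact mem_insert_of_mem (mem_singleton_self _)
    have m3 : v ⋖ w' := by rw [← mem_dc, h2]; exact mem_insert_self _ _
    have m4 : v' ⋖ w' := by rw [← mem_dc, h2]; exact mem_insert_of_mem (mem_singleton_self _)
    have l1 := lev_cov K.g.H m1
    have l2 := lev_cov K.g.H m2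
    exact ucv_uniq K.g (by omega) hne (by omega) m1 m2 m3 m4
  fl := by
    intro p hp p' hp' y u h1 h2 h3 h4
    have hpt := (K.hS p (lev_PD h1).1.le).1 hp
    have l2 := lev_PU h2
    have hpt' := (K.hS p' (by omega)).1 hp'
    obtain ⟨a, a1, a2, a3, a4, a5⟩ := K.pen_edge h1 hpt h3
    obtain ⟨b1, b2, b3, b4⟩ := K.PU_sites h2 hpt' h4
    have hly : lev y = i + 1 := by
      rw [a3]
      have f1 := K.C.lo_ge i (by omega)
      have f2 := K.C.hi_le i (by omega)
      exact K.C.lev_x (i + 1) le_rfl a (by omega) (by omega)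
    have hy2 : (uc y).card = 2 := by
      rw [a5]
      exact card_pair (K.C.inj i (by omega) _ _ (by omega) (by omega) a2)
    have hS5 := (near_level' K.g K.i1).2 t lo hi x K.ht K.C
    rcases b4 with ⟨c1, c2⟩ | ⟨c1, c2⟩
    · rcases hS5 with ⟨g1, -, -⟩ | ⟨-, -, b, hb, g3⟩ | ⟨-, g2, -⟩
      · exact absurd c1 g1
      · have g4 := g3 a a1 a2
        have hab : a = b := by
          by_contra hne
          rw [if_neg hne] at g4
          omega
        subst hab
        rcases hb with hb | ⟨hb, hb'⟩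
        · left
          refine psi_eq_of K.g hM hly hy2 ?_
          rw [c2, a5, hb, Nat.add_sub_cancel]
        · right
          refine ⟨x i (lo i + 1), ?_⟩
          rw [c2, a5, hb, show lo i + 2 - 1 = lo i + 1 by omega]
          have n1 := K.C.inj i (by omega) (lo i) (lo i + 1) (by omega) (by omega) (by omega)
          have n2 := K.C.inj i (by omega) (lo i) (lo i + 2) (by omega) (by omega) (by omega)
          have n3 := K.C.inj i (by omega) (lo i + 1) (lo i + 2) (by omega) (by omega) (by omega)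
          ext v
          simp only [mem_inter, mem_insert, mem_singleton]
          constructor
          · rintro ⟨h5 | h5, h6 | h6⟩
            · exact h5
            · exact h5
            · rw [h6] at h5
              exact absurd h5 n2
            · exact h6
          · rintro rfl
            exact ⟨Or.inl rfl, Or.inr rfl⟩
      · exact absurd c1 g2
    · rcases hS5 with ⟨-, g1, -⟩ | ⟨-, g2, -⟩ | ⟨-, -, b, hb, g3⟩
      · exact absurd c1 g1
      · exact absurd c1 g2
      · have g4 := g3 a a1 a2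
        have hab : a = b := by
          by_contra hne
          rw [if_neg hne] at g4
          omega
        subst hab
        rcases hb with hb | ⟨hb, hb'⟩
        · left
          refine psi_eq_of K.g hM hly hy2 ?_
          rw [c2, a5, hb]
        · right
          refine ⟨x i a, ?_⟩
          rw [c2, a5, show hi i - 1 = a by omega]
          have n1 := K.C.inj i (by omega) (a - 1) a (by omega) (by omega) (by omega)
          have n2 := K.C.inj i (by omega) (a - 1) (hi i) (by omega) (by omega) (by omega)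
          have n3 := K.C.inj i (by omega) a (hi i) (by omega) (by omega) (by omega)
          ext v
          simp only [mem_inter, mem_insert, mem_singleton]
          constructor
          · rintro ⟨h5 | h5, h6 | h6⟩
            · exact h6
            · rw [h5] at h6
              exact absurd h6 n2
            · exact h5
            · exact h5
          · rintro rfl
            exact ⟨Or.inr rfl, Or.inl rfl⟩

/-- the additional assumptions: not closed, not a flip -/
structure Cm6 (P : Type u) [Fintype P] [PartialOrder P] [DecidableEq P] (r i : ℕ) (t : P)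
    (lo hi : ℕ → ℕ) (x : ℕ → ℕ → P) (S : Finset P) : Prop extends Cm5 P r i t lo hi x S where
  dcl : ∀ a, lo i < a → a < hi i → dcv (x (i + 1) a) (x (i + 1) (a + 1)) ≤ 1
  fl : ∀ p ∈ PD P i, p ≤ t → ∀ q ∈ PU P i, q ≤ t → sts i p = stD i q

theorem Cm6.cmp (K : Cm6 P r i t lo hi x S) (no : ∀ z : P, lev z = i + 2 → ¬ Hul.Jn z) :
    Cmp P r i t lo hi x S :=
  ⟨K.g, K.i1, K.ht, K.C, no, K.hS, K.part.up, K.dcl, K.fl⟩

/-- the data of a component, energy six -/
theorem Cm6.ps6 (K : Cm6 P r i t lo hi x S) (hM : Mat P i ∅ psi) : SO.PS6 r i psi S := by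
  have Q := K.toCm5.ps5 hM
  obtain ⟨hc1, hc2⟩ := indiv_21 K.g i le_rfl t K.ht
  refine ⟨Q.toPSO, ?_, Q.ncu, ?_, ?_⟩
  · intro w hw w' hw' v v' hl hne h1 h2 h3 h4
    have m1 : w ⋖ v := by rw [← mem_uc, h1]; exact mem_insert_self _ _
    have m2 : w ⋖ v' := by rw [← mem_uc, h1]; exact mem_insert_of_mem (mem_singleton_self _)
    have m3 : w' ⋖ v := by rw [← mem_uc, h2]; exact mem_insert_self _ _
    have m4 : w' ⋖ v' := by rw [← mem_uc, h2]; exact mem_insert_of_mem (mem_singleton_self _)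
    have l1 := lev_cov K.g.H m1
    have l2 := lev_cov K.g.H m2
    have hvt := (K.hS v (by omega)).1 (K.part.up hw m1)
    have hvt' := (K.hS v' (by omega)).1 (K.part.up hw m2)
    obtain ⟨a, a1, a2, rfl⟩ := K.C.surj (i + 1) le_rfl v (by omega) hvt
    obtain ⟨b, b1, b2, rfl⟩ := K.C.surj (i + 1) le_rfl v' (by omega) hvt'
    have hab : a ≠ b := fun he => hne (by rw [he])
    have d1 := (K.C.uc_two K.g K.ht (k := i) (by omega) a1 a2).1 h3
    have d2 := (K.C.uc_two K.g K.ht (k := i) (by omega) b1 b2).1 h4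
    have hu : ucv (x (i + 1) a) (x (i + 1) b) = 1 := by
      rcases (near_level' K.g K.i1).1 w _ _ hl m1 m2 hne with g | ⟨g1, -, -⟩
      · exact g
      · omega
    rw [K.C.ucv_eq K.g K.ht le_rfl a1 a2 b1 b2 hab] at hu
    have hab' : b = a + 1 ∨ a = b + 1 := by
      by_contra hcon
      rw [if_neg hcon] at hu
      exact absurd hu (by norm_num)
    have hd : dcv (x (i + 1) a) (x (i + 1) b) ≤ 1 := by
      rcases hab' with rfl | rfl
      · exact K.dcl a d1.1 (by omega)
      · rw [StB_dcv_comm]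
        exact K.dcl b d2.1 (by omega)
    rw [← card_dc_inter, card_le_one] at hd
    exact hd w (mem_inter.2 ⟨mem_dc.2 m1, mem_dc.2 m2⟩) w' (mem_inter.2 ⟨mem_dc.2 m3, mem_dc.2 m4⟩)
  · intro p hp hpd
    obtain ⟨hl, hc, y, hy, hy2⟩ := mem_PD.1 hpd
    obtain ⟨y', hy'⟩ := card_eq_one.1 hc
    have hyy : y = y' := by
      rw [← mem_uc, hy', mem_singleton] at hy
      exact hy
    subst hyy
    refine ⟨y, hy', ?_⟩
    have hpt := (K.hS p hl.le).1 hp
    have h1 : (PDt i t).Nonempty := ⟨p, mem_PDt.2 ⟨hpd, hpt⟩⟩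
    rw [← card_pos, hc2, card_pos] at h1
    obtain ⟨q, hq⟩ := h1
    obtain ⟨hq1, hqt⟩ := mem_PUt.1 hq
    obtain ⟨lq, hqc⟩ := lev_PU hq1
    obtain ⟨u, hu⟩ := card_eq_one.1 hqc
    refine ⟨q, (K.hS q (by omega)).2 hqt, hq1, ?_⟩
    have hs := K.fl p hpd hpt q hq1 hqt
    rw [ClE_sts K.g.H hl hy', ClE_stD K.g.H lq hu] at hs
    have hly := lev_cov K.g.H hy
    rw [hu, psi_eq_of K.g hM (by omega) hy2 hs.symm]
  · intro p hp hpd
    obtain ⟨hl, hc, u, hu, hu2⟩ := mem_PU.1 hpd
    obtain ⟨u', hu'⟩ := card_eq_one.1 hc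
    have huu : u = u' := by
      rw [← mem_dc, hu', mem_singleton] at hu
      exact hu
    subst huu
    refine ⟨u, hu', ?_⟩
    have hpt := (K.hS p (by omega)).1 hp
    have h1 : (PUt i t).Nonempty := ⟨p, mem_PUt.2 ⟨hpd, hpt⟩⟩
    rw [← card_pos, ← hc2, card_pos] at h1
    obtain ⟨q, hq⟩ := h1
    obtain ⟨hq1, hqt⟩ := mem_PDt.1 hq
    obtain ⟨lq, hqc⟩ := lev_PD hq1
    obtain ⟨y, hy⟩ := card_eq_one.1 hqc
    refine ⟨q, (K.hS q (by omega)).2 hqt, hq1, ?_⟩
    have hs := K.fl q hq1 hqt p hpd hpt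
    rw [ClE_sts K.g.H lq hy, ClE_stD K.g.H hl hu'] at hs
    have hlu := lev_cov K.g.H hu
    rw [hy, psi_eq_of' K.g hM (by omega) hu2 hs]

end Pool.Agent.GaussPoset.Win
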