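import Pool.Agent.W_448so_h39.FC
import Pool.Agent.W_448cr_h63.CH

/-!
# S9 (MP_448cb3_co): no upper chain in a wide component
-/

namespace Pool.Agent.GaussPoset.Wd

set_option linter.unusedSectionVars false

open Finset

universe u

variable {P : Type u} [Fintype P] [PartialOrder P] [DecidableEq P] {r i : ℕ} {t : P}
  {lo hi : ℕ → ℕ} {e : ℕ → ℕ → P}

/-- in coordinates: a chain of two pendants above a double-down element of level `i - 1`, in a component
with at least four elements on level `i + 1` -/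
theorem upchain_letters (h : Win.GoodTo P r (i + 1)) (ht : lev t = 0)
    (C : Win.Comp P t (i + 1) lo hi e) (hw : lo (i + 1) + 3 ≤ hi (i + 1)) {z p u : P} (hu : u ≤ t)
    (hz : lev z + 3 = i) (hzp : Win.dc z = {p}) (hpu : Win.dc p = {u})
    (hd : (Win.dc u).card = 2) : CCOl lo i ∨ CCOr hi i := by
  have up : u ⋖ p := by
    rw [← Win.mem_dc, hpu]
    exact mem_singleton_self u
  have pz : p ⋖ z := by
    rw [← Win.mem_dc, hzp]
    exact mem_singleton_self p
  have l1 := Win.lev_cov h.H up
  have l2 := Win.lev_cov h.H pz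
  have hpt : p ≤ t := h.cov_le (by omega) ht hu up
  have hzt : z ≤ t := h.cov_le (by omega) ht hpt pz
  obtain ⟨k, rfl⟩ : ∃ k, i = k + 3 := ⟨i - 3, by omega⟩
  obtain ⟨a, a1, a2, rfl⟩ := C.surj k (by omega) z (by omega) hzt
  obtain ⟨b, b1, b2, rfl⟩ := C.surj (k + 1) (by omega) p (by omega) hpt
  obtain ⟨c, c1, c2, rfl⟩ := C.surj (k + 2) (by omega) u (by omega) hu
  have q1 := (C.cov k (by omega) b a b1 b2 a1 a2).1 pz
  have q2 := (C.cov (k + 1) (by omega) c b c1 c2 b1 b2).1 up
  have q3 := (C.dc_two h ht (k := k + 2) (by omega) c1 c2).1 hd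
  -- the only lower covers
  have r1 : ∀ d, lo (k + 1) ≤ d → d ≤ hi (k + 1) → a = d ∨ a + 1 = d → d = b := by
    intro d d1 d2 d3
    have : e (k + 1) d ∈ Win.dc (e k a) := Win.mem_dc.2 ((C.cov k (by omega) d a d1 d2 a1 a2).2 d3)
    rw [hzp, mem_singleton] at this
    exact C.inj' (by omega) d1 d2 b1 b2 this
  have r2 : ∀ d, lo (k + 2) ≤ d → d ≤ hi (k + 2) → b = d ∨ b + 1 = d → d = c := by
    intro d d1 d2 d3
    have : e (k + 2) d ∈ Win.dc (e (k + 1) b) :=
      Win.mem_dc.2 ((C.cov (k + 1) (by omega) d b d1 d2 b1 b2).2 d3)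
    rw [hpu, mem_singleton] at this
    exact C.inj' (by omega) d1 d2 c1 c2 this
  have f1 := C.lo_le k (by omega)
  have f2 := C.lo_ge k (by omega)
  have f3 := C.hi_le k (by omega)
  have f4 := C.hi_ge k (by omega)
  have g1 := C.lo_le (k + 1) (by omega)
  have g2 := C.lo_ge (k + 1) (by omega)
  have g3 := C.hi_le (k + 1) (by omega)
  have g4 := C.hi_ge (k + 1) (by omega)
  have h1 := C.lo_le (k + 2) (by omega)
  have h2 := C.lo_ge (k + 2) (by omega)
  have h3 := C.hi_le (k + 2) (by omega)
  have h4 := C.hi_ge (k + 2) (by omega)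
  have i1 := C.lo_le (k + 3) (by omega)
  have i4 := C.hi_ge (k + 3) (by omega)
  have s1 := r1 a
  have s2 := r1 (a + 1)
  have s3 := r2 b
  have s4 := r2 (b + 1)
  have e1 : k + 1 + 1 = k + 2 := rfl
  have e2 : k + 2 + 1 = k + 3 := rfl
  simp only [e1, e2] at g1 g2 g3 g4 h1 h2 h3 h4 q3
  unfold CCOl CCOr
  rw [show k + 3 - 2 = k + 1 by omega, show k + 3 - 3 = k by omega, show k + 3 - 1 = k + 2 by omega]
  by_cases hcb : c = b
  · right
    have t1 : b + 1 > hi (k + 2) := by
      by_contra hcon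
      have := s4 (by omega) (by omega) (Or.inr rfl)
      omega
    refine ⟨by omega, ?_, by omega, by omega⟩
    by_contra hcon
    have t2 : a + 1 = b := by omega
    have t3 : lo (k + 1) = b := by
      by_contra hcon'
      have := s1 (by omega) (by omega) (Or.inl rfl)
      omega
    omega
  · left
    have t1 : b < lo (k + 2) := by
      by_contra hcon
      have := s3 (by omega) (by omega) (Or.inl rfl)
      omega
    refine ⟨by omega, ?_, by omega, by omega⟩
    by_contra hcon
    have t2 : a = b := by omega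
    have t3 : hi (k + 1) = b := by
      by_contra hcon'
      have := s2 (by omega) (by omega) (Or.inr rfl)
      omega
    omega

/-- a wide component has no chain of two pendants above a double-down element -/
theorem no_upchain (h : Win.GoodTo P r (i + 1)) (ht : lev t = 0) (C : Cp.Comp (i + 1) t lo hi e)
    (S : Shape (i + 1) lo hi) (hw : lo (i + 1) + 3 ≤ hi (i + 1)) {z p u : P} (hu : u ≤ t)
    (hz : lev z + 3 = i) (hzp : Win.dc z = {p}) (hpu : Win.dc p = {u})
    (hd : (Win.dc u).card = 2) : False := by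
  have C' := C.toWin
  obtain ⟨n1, n2⟩ := S.no_cco C.hi_zero (fun k hk => ⟨C'.lo_le k hk, C'.lo_ge k hk⟩)
    (fun k hk => ⟨C'.hi_le k hk, C'.hi_ge k hk⟩) hw
  rcases upchain_letters h ht C' hw hu hz hzp hpu hd with g | g
  · exact n1 g
  · exact n2 g

end Pool.Agent.GaussPoset.Wd
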