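import Pool.Agent.W_448so_h39.FH
import Pool.Agent.W_448so_h39.FD
import Pool.Agent.W_448so_h17.CrD
import Pool.Agent.W_448wd_h84.WdJ

/-!
# S9 (MP_448cb3_co): the total poset
-/

namespace Pool.Agent.GaussPoset.Win

set_option linter.unusedSectionVars false

open Finset
open Pool.Agent.GaussPoset.Win.I2 (Prof be bb VV)
open Pool.Agent.GaussPoset.Wd (SS Shape)

universe u

variable {P : Type u} [Fintype P] [PartialOrder P] [DecidableEq P] {r i j : ℕ}
  {lo hi : ℕ → ℕ} {x : ℕ → ℕ → P} {S : Finset P}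

/-- not closed -/
def Ncl (i : ℕ) (S : Finset P) : Prop :=
  ∀ w ∈ S, ∀ w' ∈ S, ∀ x x' : P, lev w = i + 2 → x ≠ x' → uc w = {x, x'} →
    uc w' = {x, x'} → (uc x).card = 2 → (uc x').card = 2 → w = w'

/-- not a flip -/
def Nfl (i : ℕ) (S : Finset P) : Prop :=
  ∀ p ∈ S, ∀ q ∈ S, p ∈ PD P i → q ∈ PU P i → sts i p = stD i q

/-- no join on the level `i + 2`: the tops separate the components -/
lemma no_join_two (h : GoodTo P r (i + 1)) (hno : ∀ z : P, lev z = i + 2 → ¬ Hul.Jn z) {z : P}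
    (hz : lev z ≤ i + 2) : ¬ Hul.Jn z := by
  rcases Nat.lt_or_ge (lev z) (i + 2) with h1 | h1
  · exact h.no_join z (by omega)
  · exact hno z (by omega)

lemma split_two (h : GoodTo P r (i + 1)) (hno : ∀ z : P, lev z = i + 2 → ¬ Hul.Jn z) :
    Split (i + 2) (topOf : P → Tops P) := by
  intro v y hvy hv
  refine Subtype.ext ?_
  exact Hul.top_unique (no_join_two h hno hv) (topOf v).2 (topOf y).2 (le_topOf v)
    (hvy.le.trans (le_topOf y))

lemma mem_cext_two (h : GoodTo P r (i + 1)) (hno : ∀ z : P, lev z = i + 2 → ¬ Hul.Jn z)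
    (t : Tops P) {y : P} (hy : lev y ≤ i + 2) :
    y ∈ cext (i + 2) (topOf : P → Tops P) t ↔ y ≤ (t : P) := by
  rw [mem_cext]
  constructor
  · intro h1
    have h2 := h1 y le_rfl hy
    rw [← h2]
    exact le_topOf y
  · intro h1 z hz hlz
    refine Subtype.ext ?_
    exact Hul.top_unique (no_join_two h hno hy) (topOf z).2 t.2 (hz.trans (le_topOf z)) h1

/-- the extended components -/
lemma cm5_no (h : GoodTo P r (i + 1)) (hi1 : 1 ≤ i)
    (hno : ∀ z : P, lev z = i + 2 → ¬ Hul.Jn z) (t : Tops P)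
    (C : Comp P (t : P) (i + 1) lo hi x) :
    Cm5 P r i (t : P) lo hi x (cext (i + 2) (topOf : P → Tops P) t) where
  g := h
  i1 := hi1
  ht := t.2
  C := C
  part := part_cext h.H (by omega) (split_two h hno) t
  hS := fun y hy => mem_cext_two h hno t hy

lemma Cm5.to6 {t : P} (K : Cm5 P r i t lo hi x S) (h1 : Ncl i S) (h2 : Nfl i S) :
    Cm6 P r i t lo hi x S := by
  refine ⟨K, ?_, ?_⟩
  · intro a ha ha'
    rw [← card_dc_inter, card_le_one]
    intro w hw w' hw'
    rw [mem_inter, mem_dc, mem_dc] at hw hw'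
    have f1 := K.C.lo_ge i (by omega)
    have f2 := K.C.hi_le i (by omega)
    have hl := K.C.lev_x (i + 1) le_rfl a (by omega) (by omega)
    have hne := K.C.inj (i + 1) le_rfl a (a + 1) (by omega) (by omega) (by omega)
    have l1 := lev_cov K.g.H hw.1
    have l2 := lev_cov K.g.H hw'.1
    have hat := K.C.le_t (i + 1) le_rfl a (by omega) (by omega)
    exact h1 w ((K.hS w (by omega)).2 (hw.1.le.trans hat)) w'
      ((K.hS w' (by omega)).2 (hw'.1.le.trans hat)) _ _ (by omega) hne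
      (StB_uc_pair K.g.H hw.1 hw.2 hne) (StB_uc_pair K.g.H hw'.1 hw'.2 hne)
      ((K.C.uc_two K.g K.ht (k := i) (by omega) (by omega) (by omega)).2 ⟨ha, by omega⟩)
      ((K.C.uc_two K.g K.ht (k := i) (by omega) (by omega) (by omega)).2 ⟨by omega, by omega⟩)
  · intro p hp hpt q hq hqt
    have l1 := lev_PD hp
    have l2 := lev_PU hq
    exact h2 p ((K.hS p (by omega)).2 hpt) q ((K.hS q (by omega)).2 hqt) hp hq

/-- the number of sites -/
lemma Cm5.card_st {t : P} (K : Cm5 P r i t lo hi x S) : (st i S).card = hi i + 1 - lo i := by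
  have h1 : st i S = (Icc (lo i) (hi i)).image (x i) := by
    ext v
    unfold st
    rw [mem_filter, mem_image]
    constructor
    · rintro ⟨h1, h2⟩
      obtain ⟨a, a1, a2, rfl⟩ := K.C.surj i (by omega) v h2 ((K.hS v (by omega)).1 h1)
      exact ⟨a, mem_Icc.2 ⟨a1, a2⟩, rfl⟩
    · rintro ⟨a, ha, rfl⟩
      rw [mem_Icc] at ha
      have hl := K.C.lev_x i (by omega) a ha.1 ha.2
      exact ⟨(K.hS _ (by omega)).2 (K.C.le_t i (by omega) a ha.1 ha.2), hl⟩
  rw [h1, card_image_of_injOn, Nat.card_Icc]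
  intro a ha b hb hab
  rw [mem_coe, mem_Icc] at ha hb
  exact K.C.inj' (by omega) ha.1 ha.2 hb.1 hb.2 hab

/-- the conclusion for one component -/
theorem S9_one (h : GoodTo P r (i + 1)) (hi1 : 1 ≤ i) (hr : i + 2 ≤ r)
    (hno : ∀ z : P, lev z = i + 2 → ¬ Hul.Jn z) (t : Tops P) {e : ℕ → ℕ → P}
    (C : Cp.Comp (i + 1) (t : P) lo hi e) (hS : Shape (i + 1) lo hi)
    (h1 : lo (i + 1) + 3 ≤ hi (i + 1) → Ncl i (cext (i + 2) (topOf : P → Tops P) t) ∧
      Nfl i (cext (i + 2) (topOf : P → Tops P) t) ∧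
      QQ i (cext (i + 2) (topOf : P → Tops P) t) ≤ 0 ∧
      ∀ z ∈ cext (i + 2) (topOf : P → Tops P) t,
        ∀ w ∈ ZL i (cext (i + 2) (topOf : P → Tops P) t), uc z ≠ {w}) :
    T6case P (i + 1) (t : P) := by
  have C' := C.toWin
  have K := cm5_no h hi1 hno t C'
  have hcard := (C'.rw_row h hi1 t.2).card_wt
  have hlohi := C'.lohi (i + 1) le_rfl
  by_cases hw : lo (i + 1) + 3 ≤ hi (i + 1)
  swap
  · exact Or.inr (Or.inl (by omega))
  obtain ⟨g1, g2, g3, g4⟩ := h1 hw
  have K6 := K.to6 g1 g2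
  have hU : FU' i (cext (i + 2) (topOf : P → Tops P) t) = ∅ := by
    rw [eq_empty_iff_forall_notMem]
    intro z hz
    obtain ⟨m1, p, hp, hzp⟩ := mem_FU'.1 hz
    have l1 := lev_FU h.H hz
    obtain ⟨l2, hc, u, hu, hu2⟩ := mem_PU.1 hp
    obtain ⟨u', hpu⟩ := card_eq_one.1 hc
    have huu : u = u' := by
      rw [← mem_dc, hpu, mem_singleton] at hu
      exact hu
    subst huu
    have hzt := (mem_cext_two h hno t (by omega)).1 m1
    have hpz : p ⋖ z := by
      rw [← mem_dc, hzp]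
      exact mem_singleton_self p
    exact Wd.no_upchain h t.2 C hS hw (hu.le.trans (hpz.le.trans hzt)) l1 hzp hpu hu2
  obtain ⟨-, hD⟩ := (K6.cmp hno).QQ_zero g3 hU
  -- neighbouring double-ups in coordinates
  have key : ∀ v v' : P, lev v = i + 1 → lev v' = i + 1 → v ≤ (t : P) → v' ≤ (t : P) →
      (uc v).card = 2 → (uc v').card = 2 → ucv v v' = 1 →
      ∃ a, lo i < a ∧ a < hi i ∧ ((v = e (i + 1) a ∧ v' = e (i + 1) (a + 1)) ∨
        (v' = e (i + 1) a ∧ v = e (i + 1) (a + 1))) := by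
    intro v v' hv hv' hvt hvt' h2 h2' hu
    obtain ⟨a, a1, a2, rfl⟩ := C'.surj (i + 1) le_rfl v hv hvt
    obtain ⟨b, b1, b2, rfl⟩ := C'.surj (i + 1) le_rfl v' hv' hvt'
    have d1 := (C'.uc_two h t.2 (k := i) (by omega) a1 a2).1 h2
    have d2 := (C'.uc_two h t.2 (k := i) (by omega) b1 b2).1 h2'
    have hab : a ≠ b := by
      rintro rfl
      rw [← card_uc_inter, inter_self] at hu
      omega
    rw [C'.ucv_eq h t.2 le_rfl a1 a2 b1 b2 hab] at hu
    have hab' : b = a + 1 ∨ a = b + 1 := by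
      by_contra hcon
      rw [if_neg hcon] at hu
      exact absurd hu (by norm_num)
    rcases hab' with rfl | rfl
    · exact ⟨a, d1.1, by omega, Or.inl ⟨rfl, rfl⟩⟩
    · exact ⟨b, d2.1, by omega, Or.inr ⟨rfl, rfl⟩⟩
  refine S9_case h hi1 hr hno t.2 (fun _ => ?_) (fun _ => ?_)
  · intro v v' hv hv' hvt hvt' h2 h2' hu
    obtain ⟨a, a1, a2, ⟨rfl, rfl⟩ | ⟨rfl, rfl⟩⟩ := key v v' hv hv' hvt hvt' h2 h2' hu
    · exact hD a a1 a2
    · rw [StB_dcv_comm]
      exact hD a a1 a2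
  · intro z w hz hzt hzw
    by_contra hcon
    push Not at hcon
    obtain ⟨l1, hc, w', hw', hw2⟩ := mem_PD.1 hz
    obtain ⟨w0, hz0⟩ := card_eq_one.1 hc
    have e1 : w = w0 := by
      have := mem_uc.2 hzw
      rw [hz0, mem_singleton] at this
      exact this
    have e2 : w' = w0 := by
      have := mem_uc.2 hw'
      rw [hz0, mem_singleton] at this
      exact this
    subst e1
    subst e2
    have lw := lev_cov h.H hzw
    -- both elements belong to the part
    have hwt : w' ≤ (t : P) := by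
      rcases eq_or_lt_of_le hzt with h3 | h3
      · exfalso
        have := t.2
        rw [← h3] at this
        omega
      · obtain ⟨y, hy, hyt⟩ := exists_covBy_le_of_lt h3
        rw [← mem_uc, hz0, mem_singleton] at hy
        rw [← hy]
        exact hyt
    have hwS := (mem_cext_two h hno t (y := w') (by omega)).2 hwt
    have hzS : z ∈ cext (i + 2) (topOf : P → Tops P) t := by
      rw [mem_cext]
      intro y hy hly
      have hyw : w' ≤ y := by
        rcases eq_or_lt_of_le hy with h3 | h3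
        · exfalso
          rw [← h3] at hly
          omega
        · obtain ⟨y', hy', hyt⟩ := exists_covBy_le_of_lt h3
          rw [← mem_uc, hz0, mem_singleton] at hy'
          rw [← hy']
          exact hyt
      exact (mem_cext.1 hwS) y hyw hly
    obtain ⟨v, v', hne, hv⟩ := card_eq_two.1 hw2
    have m1 : w' ⋖ v := by rw [← mem_uc, hv]; exact mem_insert_self _ _
    have m2 : w' ⋖ v' := by rw [← mem_uc, hv]; exact mem_insert_of_mem (mem_singleton_self _)
    have lv1 := lev_cov h.H m1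
    have lv2 := lev_cov h.H m2
    have hvt : v ≤ (t : P) := (mem_cext_two h hno t (by omega)).1 (K.part.up hwS m1)
    have hvt' : v' ≤ (t : P) := (mem_cext_two h hno t (by omega)).1 (K.part.up hwS m2)
    have hu : ucv v v' = 1 := by
      rcases (near_level' h hi1).1 w' v v' (by omega) m1 m2 hne with g | ⟨g, -, -⟩
      · exact g
      · have := hcon v m1
        omega
    obtain ⟨a, a1, a2, ⟨rfl, rfl⟩ | ⟨rfl, rfl⟩⟩ := key v v' (by omega) (by omega) hvt hvt'
      (hcon v m1) (hcon v' m2) hu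
    · exact g4 z hzS w' (low_Tr C' h t.2 K.hS a1 a2 m1 m2).1 hz0
    · exact g4 z hzS w' (low_Tr C' h t.2 K.hS a1 a2 m2 m1).1 hz0

/-- S9 for all components, from the second order theorem for the components with at least three sites -/
theorem S9_all (h : GoodTo P r (i + 1)) (hi1 : 1 ≤ i) (hr : i + 2 ≤ r)
    (hno : ∀ z : P, lev z = i + 2 → ¬ Hul.Jn z)
    (hZ : ∀ v, lev v = i + 3 → v ∉ cuni (i + 2) (topOf : P → Tops P) → up (i + 1) v = 2 →
      up i v ≤ 3)
    (hsh : ∀ t : Tops P, ∃ lo hi e, Cp.Comp (i + 1) (t : P) lo hi e ∧ Shape (i + 1) lo hi)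
    (hP : ∀ t : Tops P, Prof 3 5 (st i (cext (i + 2) (topOf : P → Tops P) t)).card
      (ZS i (cext (i + 2) (topOf : P → Tops P) t)))
    (hfive : ∀ t : Tops P, 3 ≤ (st i (cext (i + 2) (topOf : P → Tops P) t)).card →
      be 5 (st i (cext (i + 2) (topOf : P → Tops P) t)).card
        (ZS i (cext (i + 2) (topOf : P → Tops P) t)) ≤ 0 ∧
      (be 5 (st i (cext (i + 2) (topOf : P → Tops P) t)).card
        (ZS i (cext (i + 2) (topOf : P → Tops P) t)) = 0 →
        Ncl i (cext (i + 2) (topOf : P → Tops P) t) ∧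
        Nfl i (cext (i + 2) (topOf : P → Tops P) t)))
    (hsix : ∀ t : Tops P, 3 ≤ (st i (cext (i + 2) (topOf : P → Tops P) t)).card →
      Ncl i (cext (i + 2) (topOf : P → Tops P) t) → Nfl i (cext (i + 2) (topOf : P → Tops P) t) →
      dd ^ (st i (cext (i + 2) (topOf : P → Tops P) t)).card ∣
        dd ^ 2 * PowerSeries.coeff 6 (ZS i (cext (i + 2) (topOf : P → Tops P) t)) ∧
      ∃ n : ℕ, (I2.al 3 (st i (cext (i + 2) (topOf : P → Tops P) t)).card
          (ZS i (cext (i + 2) (topOf : P → Tops P) t))) ^ 2 -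
        2 * be 6 (st i (cext (i + 2) (topOf : P → Tops P) t)).card
          (ZS i (cext (i + 2) (topOf : P → Tops P) t)) =
        QQ i (cext (i + 2) (topOf : P → Tops P) t) + 2 * (n : ℤ) ∧
        (n = 0 → ∀ z ∈ cext (i + 2) (topOf : P → Tops P) t,
          ∀ w ∈ ZL i (cext (i + 2) (topOf : P → Tops P) t), uc z ≠ {w})) :
    (∀ t : P, lev t = 0 → T6case P (i + 1) t) ∧ So.N5s i (topOf : P → Tops P) = ∅ := by
  have hκ : Split (i + 2) (topOf : P → Tops P) := split_two h hno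
  rcases isEmpty_or_nonempty P with hPe | ⟨⟨v0⟩⟩
  · exact ⟨fun t => (hPe.false t).elim, eq_empty_iff_forall_notMem.2 fun v _ => hPe.false v⟩
  have hb : 1 ≤ (lv P i).card := by
    obtain ⟨lo, hi, e, C, -⟩ := hsh (topOf v0)
    have C' := C.toWin
    have f1 := C'.lohi i (by omega)
    exact card_pos.2 ⟨e i (lo i), mem_lv.2 (C'.lev_x i (by omega) (lo i) le_rfl f1)⟩
  have hfive' : ∀ a ∈ univ.image (topOf : P → Tops P), 3 ≤ bb i (i + 2) topOf a →
      be 5 (bb i (i + 2) topOf a) (VV i (i + 2) topOf a) ≤ 0 := fun a _ h3 => (hfive a h3).1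
  have h5 := So.five_zero h.H hi1 h.hr (h.good i (by omega)) hκ hb hZ (fun a _ => hP a) hfive'
  have hm : ∀ t : Tops P, t ∈ univ.image (topOf : P → Tops P) := Wd.mem_tops
  have hnn : ∀ t : Tops P, 3 ≤ (st i (cext (i + 2) (topOf : P → Tops P) t)).card →
      Ncl i (cext (i + 2) (topOf : P → Tops P) t) ∧ Nfl i (cext (i + 2) (topOf : P → Tops P) t) ∧
      0 ≤ QQ i (cext (i + 2) (topOf : P → Tops P) t) := by
    intro t h3
    obtain ⟨g1, g2⟩ := (hfive t h3).2 (h5 t (hm t))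
    obtain ⟨lo, hi, e, C, -⟩ := hsh t
    exact ⟨g1, g2, (((cm5_no h hi1 hno t C.toWin).to6 g1 g2).cmp hno).QQ_nonneg⟩
  obtain ⟨h6, h7⟩ := So.six_zero h.H hi1 h.hr (h.good i (by omega)) hκ hb hZ (fun a _ => hP a)
    (fun a _ h3 => (hsix a h3 (hnn a h3).1 (hnn a h3).2.1).1) hfive' (fun a _ h3 => by
      obtain ⟨g1, g2, g3⟩ := hnn a h3
      obtain ⟨-, n, g4, -⟩ := hsix a h3 g1 g2
      have g5 : (0 : ℤ) ≤ 2 * (n : ℤ) := by positivity
      show 2 * be 6 (st i (cext (i + 2) (topOf : P → Tops P) a)).card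
          (ZS i (cext (i + 2) (topOf : P → Tops P) a)) ≤
        (I2.al 3 (st i (cext (i + 2) (topOf : P → Tops P) a)).card
          (ZS i (cext (i + 2) (topOf : P → Tops P) a))) ^ 2
      linarith)
  refine ⟨?_, h7⟩
  intro t0 ht0
  obtain ⟨t, rfl⟩ : ∃ t : Tops P, (t : P) = t0 := ⟨⟨t0, ht0⟩, rfl⟩
  obtain ⟨lo, hi, e, C, hS⟩ := hsh t
  refine S9_one h hi1 hr hno t C hS (fun hw => ?_)
  have K := cm5_no h hi1 hno t C.toWin
  have hcs := K.card_st
  have f1 := C.toWin.lo_le i (by omega)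
  have f4 := C.toWin.hi_ge i (by omega)
  have h3 : 3 ≤ (st i (cext (i + 2) (topOf : P → Tops P) t)).card := by omega
  obtain ⟨g1, g2, g3⟩ := hnn t h3
  obtain ⟨-, n, g4, g5⟩ := hsix t h3 g1 g2
  have g6 : (I2.al 3 (st i (cext (i + 2) (topOf : P → Tops P) t)).card
      (ZS i (cext (i + 2) (topOf : P → Tops P) t))) ^ 2 =
      2 * be 6 (st i (cext (i + 2) (topOf : P → Tops P) t)).card
        (ZS i (cext (i + 2) (topOf : P → Tops P) t)) := h6 t (hm t)
  have g7 : (0 : ℤ) ≤ 2 * (n : ℤ) := by positivity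
  refine ⟨g1, g2, by linarith, g5 ?_⟩
  omega

end Pool.Agent.GaussPoset.Win
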