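import Pool.Agent.W_448wd_h84.WdE
import Pool.Agent.W_448cp_h96.CE

/-!
# S9 (MP_448cb3_co): no letters C, C, O before the last step of a wide component
-/

namespace Pool.Agent.GaussPoset.Wd

set_option linter.unusedSectionVars false

open Cp

/-- letters C, C, O at the left end, steps `i - 3 → i` -/
def CCOl (lo : ℕ → ℕ) (i : ℕ) : Prop :=
  3 ≤ i ∧ lo (i - 2) = lo (i - 3) + 1 ∧ lo (i - 1) = lo (i - 2) + 1 ∧ lo i = lo (i - 1)

/-- letters C, C, O at the right end, steps `i - 3 → i` -/
def CCOr (hi : ℕ → ℕ) (i : ℕ) : Prop :=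
  3 ≤ i ∧ hi (i - 2) = hi (i - 3) ∧ hi (i - 1) = hi (i - 2) ∧ hi i = hi (i - 1) + 1

/-- the letters of a word -/
lemma word_spec {lo hi : ℕ → ℕ} {a d : ℕ} {w : List Ltr} (h : word lo hi a d = w) :
    d = w.length ∧ ∀ n, n < d → (w[n]?.map Prod.fst = some (decide (lo (a + n + 1) ≠ lo (a + n)))) ∧
      (w[n]?.map Prod.snd = some (decide (hi (a + n + 1) ≠ hi (a + n)))) := by
  subst h
  unfold word
  refine ⟨by simp, fun n hn => ?_⟩
  simp [hn]

/-- the number of elements minus one -/
def wdt (w : List Ltr) : ℤ :=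
  1 + (w.map (fun l => (if l.2 then (1 : ℤ) else 0) - if l.1 then 1 else 0)).sum

lemma lateW_wide (a : ℕ) : ∀ w ∈ lateW a, 3 ≤ wdt w →
    w = [OC, OO, OO] ∨ w = [OC, OO, CO, OO] ∨ w = [OC, CO, CO, OO, CO, OO] ∨
      w = [OC, CO, CO, OO, CO, OO, OC] ∨ w = [OC, CO, CO, OO, CO, OO, OO] := by
  unfold lateW
  split_ifs <;> first | omega | decide

/-- the late words with at least four elements on the last level -/
lemma late_wide {lo hi : ℕ → ℕ} {a d : ℕ} (h3 : lo a = 0 ∧ hi a = 1)
    (hl : ∀ k, k < a + d → lo k ≤ lo (k + 1) ∧ lo (k + 1) ≤ lo k + 1)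
    (hh : ∀ k, k < a + d → hi k ≤ hi (k + 1) ∧ hi (k + 1) ≤ hi k + 1)
    (h4 : ((1 ≤ d ∧ d ≤ a) ∧ word lo hi a d = Qw d) ∨ word lo hi a d ∈ lateW a)
    (hw : lo (a + d) + 3 ≤ hi (a + d)) :
    word lo hi a d = [OC, OO, OO] ∨ word lo hi a d = [OC, OO, CO, OO] ∨
      word lo hi a d = [OC, CO, CO, OO, CO, OO] ∨ word lo hi a d = [OC, CO, CO, OO, CO, OO, OC] ∨
      word lo hi a d = [OC, CO, CO, OO, CO, OO, OO] := by
  have key : 3 ≤ wdt (word lo hi a d) := by
    unfold wdt
    have gen : ∀ n, n ≤ d → (hi (a + n) : ℤ) - lo (a + n) =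
        1 + ((word lo hi a n).map (fun l => (if l.2 then (1 : ℤ) else 0) -
          if l.1 then 1 else 0)).sum := by
      intro n
      induction n with
      | zero =>
        intro _
        simp [word, h3.1, h3.2]
      | succ n ih =>
        intro hn
        have e1 := ih (by omega)
        have e2 := hl (a + n) (by omega)
        have e3 := hh (a + n) (by omega)
        have e4 : word lo hi a (n + 1) = word lo hi a n ++
            [(decide (lo (a + n + 1) ≠ lo (a + n)), decide (hi (a + n + 1) ≠ hi (a + n)))] := by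
          unfold word
          rw [List.range_succ, List.map_append]
          rfl
        rw [e4, List.map_append, List.sum_append]
        simp only [List.map_cons, List.map_nil, List.sum_cons, List.sum_nil, add_zero,
          decide_eq_true_eq]
        rw [show a + (n + 1) = a + n + 1 by omega]
        split_ifs <;> omega
    have := gen d le_rfl
    rw [← this]
    omega
  rcases h4 with ⟨⟨h5, h6⟩, h7⟩ | h4
  · exfalso
    -- a quadric: one element
    have gen : ∀ n, n + 1 ≤ d → lo (a + (n + 1)) = hi (a + (n + 1)) := by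
      obtain ⟨-, hs⟩ := word_spec h7
      intro n
      induction n with
      | zero =>
        intro hn
        obtain ⟨q1, q2⟩ := hs 0 (by omega)
        have e2 := hl a (by omega)
        have e3 := hh a (by omega)
        simp only [Qw, List.getElem?_cons_zero, CC, Option.map_some, Option.some.injEq] at q1 q2
        have q1' : lo (a + 0 + 1) ≠ lo (a + 0) := of_decide_eq_true q1.symm
        have q2' : ¬ hi (a + 0 + 1) ≠ hi (a + 0) := of_decide_eq_false q2.symm
        simp only [Nat.add_zero] at q1' q2'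
        show lo (a + 1) = hi (a + 1)
        omega
      | succ n ih =>
        intro hn
        have e1 := ih (by omega)
        obtain ⟨q1, q2⟩ := hs (n + 1) (by omega)
        simp only [Qw, List.getElem?_cons_succ] at q1 q2
        rw [List.getElem?_replicate, if_pos (by omega)] at q1 q2
        simp only [OC, Option.map_some, Option.some.injEq] at q1 q2
        have q1' : ¬ lo (a + (n + 1) + 1) ≠ lo (a + (n + 1)) := of_decide_eq_false q1.symm
        have q2' : ¬ hi (a + (n + 1) + 1) ≠ hi (a + (n + 1)) := of_decide_eq_false q2.symm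
        rw [show a + (n + 1 + 1) = a + (n + 1) + 1 by omega]
        omega
    have := gen (d - 1) (by omega)
    rw [Nat.sub_add_cancel h5] at this
    omega
  · exact lateW_wide a _ h4 key

/-- the letters before the last step of a wide component are not C, C, O -/
theorem Shape.no_cco {lo hi : ℕ → ℕ} {i : ℕ} (S : Shape (i + 1) lo hi) (hhi0 : hi 0 = 0)
    (hl : ∀ k, k < i + 1 → lo k ≤ lo (k + 1) ∧ lo (k + 1) ≤ lo k + 1)
    (hh : ∀ k, k < i + 1 → hi k ≤ hi (k + 1) ∧ hi (k + 1) ≤ hi k + 1)
    (hw : lo (i + 1) + 3 ≤ hi (i + 1)) : ¬ CCOl lo i ∧ ¬ CCOr hi i := by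
  have hb : ∀ k, k ≤ i + 1 → hi k ≤ k := by
    intro k
    induction k with
    | zero => intro _; rw [hhi0]
    | succ k ih =>
      intro hk
      have := ih (by omega)
      have := hh k (by omega)
      omega
  have left : ∀ (_ : ∀ k, k < i + 1 → lo (k + 1) = 0 ∨ lo (k + 1) = lo k + 1), ¬ CCOl lo i := by
    rintro hL ⟨h1, h2, h3, h4⟩
    have := hL (i - 1) (by omega)
    rw [Nat.sub_add_cancel (by omega)] at this
    omega
  rcases S with h | ⟨h1, h2⟩ | ⟨h1, h2⟩ | ⟨h1, h2, h3⟩ | ⟨h1, h2⟩ | ⟨a, h0, h1, h2, h3, hN, h4⟩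
  · have := h (i + 1) le_rfl
    omega
  · refine ⟨left h2.lo, ?_⟩
    rintro ⟨g1, g2, g3, g4⟩
    have e1 := h2.hi (i - 1) (by omega)
    rw [Nat.sub_add_cancel (by omega)] at e1
    have e2 := hb (i - 2) (by omega)
    omega
  · refine ⟨left h2.lo, ?_⟩
    rintro ⟨g1, g2, g3, g4⟩
    rw [h2.hi _ (by omega), h2.hi _ (by omega)] at g2 g3
    omega
  · have : i = 2 := by omega
    subst this
    norm_num at hw
    omega
  · have : i = 5 := by omega
    subst this
    unfold F1 at h2
    norm_num at hw
    omega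
  · obtain ⟨d, hd⟩ : ∃ d, i + 1 = a + d := ⟨i + 1 - a, by omega⟩
    rw [show i + 1 - a = d by omega] at h4
    rw [hd] at hw hl hh
    have key := late_wide h3 hl hh h4 hw
    have s0 := h2 (a - 1) (by omega)
    have s1 := h2 (a - 2) (by omega)
    unfold CCOl CCOr
    rcases key with key | key | key | key | key <;> obtain ⟨hlen, hsp⟩ := word_spec key <;>
      simp only [List.length_cons, List.length_nil] at hlen <;> subst hlen
    · rw [show i - 3 = a - 1 by omega, show i - 2 = a by omega]
      constructor <;> omega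
    · obtain ⟨-, q1⟩ := hsp 1 (by omega)
      obtain ⟨q2, -⟩ := hsp 2 (by omega)
      simp only [List.getElem?_cons_succ, List.getElem?_cons_zero, OO, CO, Option.map_some,
        Option.some.injEq] at q1 q2
      have q1' : hi (a + 1 + 1) ≠ hi (a + 1) := of_decide_eq_true q1.symm
      have q2' : lo (a + 2 + 1) ≠ lo (a + 2) := of_decide_eq_true q2.symm
      rw [show i - 3 = a by omega, show i - 2 = a + 1 by omega, show i - 1 = a + 1 + 1 by omega,
        show i = a + 2 + 1 by omega]
      constructor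
      · rintro ⟨-, -, -, e⟩
        exact q2' e
      · rintro ⟨-, -, e, -⟩
        exact q1' e
    · obtain ⟨q1, q2⟩ := hsp 3 (by omega)
      simp only [List.getElem?_cons_succ, List.getElem?_cons_zero, OO, Option.map_some,
        Option.some.injEq] at q1 q2
      have q1' : ¬ lo (a + 3 + 1) ≠ lo (a + 3) := of_decide_eq_false q1.symm
      have q2' : hi (a + 3 + 1) ≠ hi (a + 3) := of_decide_eq_true q2.symm
      rw [show i - 2 = a + 3 by omega, show i - 1 = a + 3 + 1 by omega]
      constructor
      · rintro ⟨-, -, e, -⟩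
        omega
      · rintro ⟨-, -, e, -⟩
        exact q2' e
    · obtain ⟨q1, -⟩ := hsp 4 (by omega)
      obtain ⟨-, q2⟩ := hsp 4 (by omega)
      obtain ⟨q3, -⟩ := hsp 3 (by omega)
      simp only [List.getElem?_cons_succ, List.getElem?_cons_zero, OO, CO, Option.map_some,
        Option.some.injEq] at q1 q2 q3
      have q2' : hi (a + 4 + 1) ≠ hi (a + 4) := of_decide_eq_true q2.symm
      have q3' : ¬ lo (a + 3 + 1) ≠ lo (a + 3) := of_decide_eq_false q3.symm
      rw [show i - 3 = a + 3 by omega, show i - 2 = a + 3 + 1 by omega,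
        show i - 1 = a + 4 + 1 by omega]
      constructor
      · rintro ⟨-, e, -, -⟩
        omega
      · rintro ⟨-, -, e, -⟩
        exact q2' e
    · obtain ⟨q1, -⟩ := hsp 4 (by omega)
      obtain ⟨-, q2⟩ := hsp 4 (by omega)
      obtain ⟨q3, -⟩ := hsp 3 (by omega)
      simp only [List.getElem?_cons_succ, List.getElem?_cons_zero, OO, CO, Option.map_some,
        Option.some.injEq] at q1 q2 q3
      have q2' : hi (a + 4 + 1) ≠ hi (a + 4) := of_decide_eq_true q2.symm
      have q3' : ¬ lo (a + 3 + 1) ≠ lo (a + 3) := of_decide_eq_false q3.symm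
      rw [show i - 3 = a + 3 by omega, show i - 2 = a + 3 + 1 by omega,
        show i - 1 = a + 4 + 1 by omega]
      constructor
      · rintro ⟨-, e, -, -⟩
        omega
      · rintro ⟨-, -, e, -⟩
        exact q2' e

end Pool.Agent.GaussPoset.Wd
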