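import Pool.Agent.W_448so_h39.FI
import Pool.Agent.W_448so_h64.SoW

/-!
# S9 (MP_448cb3_co): energy five of a component whose next level is arbitrary
-/

namespace Pool.Agent.GaussPoset.Win.SO

set_option linter.unusedSectionVars false

open Finset
open Pool.Agent.GaussPoset.Win.I2 (Prof be)

universe u

variable {P : Type u} [Fintype P] [PartialOrder P] [DecidableEq P] {r i : ℕ} {psi : P → P}
  {C : Finset P}

/-- the value of (5,2) of a part -/
theorem PS5.five_gen (Q : PS5 r i psi C) (hb : 1 ≤ (st i C).card) :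
    2 * I2.be 5 (st i C).card (ZS i C) =
      2 * (∑ q ∈ I5 i C, chg i C q.1 * vp i q.2) - ((O5 i C).card : ℤ) - 2 * (F5 i C).card := by
  classical
  have H := Q.H
  have hir : i ≤ r := by have := Q.hi2; omega
  rw [Q.be_five hb, D5_eq Q hb, sum_union, sum_union, sum_union]
  rotate_left
  · exact dis_6 Q.toPSO
  · rw [disjoint_union_right]
    exact ⟨dis_4, dis_5⟩
  · rw [disjoint_union_right, disjoint_union_right]
    exact ⟨dis_1, dis_2 Q.toPSO, dis_3 H⟩
  have e1 : ∑ e ∈ (I5 i C).image (c5 i),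
      PowerSeries.coeff (st i C).card (dd ^ 2 * tC i C e : A) =
      ∑ q ∈ I5 i C, chg i C q.1 * vp i q.2 := by
    rw [sum_image (fun a ha b hb h => c5_inj H hir ha hb h)]
    exact sum_congr rfl fun q hq => (I5_value H Q.hi Q.hi2 Q.hC hq).2
  have e2 : ∑ e ∈ (O5 i C).image (cA i),
      PowerSeries.coeff (st i C).card (dd ^ 2 * tC i C e : A) = - ((O5 i C).card : ℤ) := by
    rw [sum_image (fun a ha b hb h => cA_inj Q.toPSO ha hb h),
      sum_congr rfl (g := fun _ => (-1 : ℤ)) fun q hq => (cA_value Q.toPSO hq).2, sum_const]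
    simp
  have e3 : ∑ e ∈ (O5 i C).image (cB i),
      PowerSeries.coeff (st i C).card (dd ^ 2 * tC i C e : A) =
        (((O5 i C).image (cB i)).card : ℤ) := by
    rw [sum_congr rfl (g := fun _ => (1 : ℤ)), sum_const]
    · simp
    · intro e he
      rw [mem_image] at he
      obtain ⟨q, hq, rfl⟩ := he
      exact (cB_value Q.toPSO hq).2
  have e4 : ∑ e ∈ (F5 i C).image (cF i),
      PowerSeries.coeff (st i C).card (dd ^ 2 * tC i C e : A) = - ((F5 i C).card : ℤ) := by
    rw [sum_image (fun a ha b hb h => cF_inj H ha hb h),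
      sum_congr rfl (g := fun _ => (-1 : ℤ)) fun q hq => (cF_value Q.toPSO hq).2, sum_const]
    simp
  rw [e1, e2, e3, e4]
  have h2 := card_B (i := i) Q.toPSO
  have h3 : (2 : ℤ) * (((O5 i C).image (cB i)).card : ℤ) = ((O5 i C).card : ℤ) := by
    exact_mod_cast h2
  linarith

/-- the profile at energy five -/
theorem PS5.prof5 (Q : PS5 r i psi C) (hc : (C.filter (· ∈ PD P i)).card =
    (C.filter (· ∈ PU P i)).card) : Prof 3 5 (st i C).card (ZS i C) where
  lo := by
    intro n hn
    rw [coeff_ZS]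
    rcases Nat.eq_zero_or_pos n with rfl | h
    · rw [ZC_zero Q.H (by have := Q.hi2; omega)]
    · exact so_lo Q.toPSO hc h (by omega)
  mid := by
    intro n hn
    rw [coeff_ZS]
    have := dvd_up (k := 1) (Q.le_four (n := n) (by omega))
    rwa [pow_one] at this
  top := by
    rw [coeff_ZS]
    exact dvd_up Q.dvd5

end Pool.Agent.GaussPoset.Win.SO

namespace Pool.Agent.GaussPoset.Win

set_option linter.unusedSectionVars false

open Finset
open Pool.Agent.GaussPoset.Win.I2 (Prof be)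

universe u

variable {P : Type u} [Fintype P] [PartialOrder P] [DecidableEq P] {r i j : ℕ} {t : P}
  {lo hi : ℕ → ℕ} {x : ℕ → ℕ → P} {S : Finset P} {psi : P → P}

/-- equally many pendants below and above -/
lemma Cm5.card_PP (K : Cm5 P r i t lo hi x S) : (S.filter (· ∈ PD P i)).card =
    (S.filter (· ∈ PU P i)).card := by
  obtain ⟨-, hc2⟩ := indiv_21 K.g i le_rfl t K.ht
  have e1 : S.filter (· ∈ PD P i) = PDt i t := by
    ext z
    rw [mem_filter, mem_PDt]
    constructor
    · rintro ⟨h1, h2⟩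
      exact ⟨h2, (K.hS z (lev_PD h2).1.le).1 h1⟩
    · rintro ⟨h1, h2⟩
      exact ⟨(K.hS z (lev_PD h1).1.le).2 h2, h1⟩
  have e2 : S.filter (· ∈ PU P i) = PUt i t := by
    ext z
    rw [mem_filter, mem_PUt]
    constructor
    · rintro ⟨h1, h2⟩
      have := lev_PU h2
      exact ⟨h2, (K.hS z (by omega)).1 h1⟩
    · rintro ⟨h1, h2⟩
      have := lev_PU h1
      exact ⟨(K.hS z (by omega)).2 h2, h1⟩
  rw [e1, e2, hc2]

/-- a triple and an edge -/
lemma disj_Tr (C : Comp P t j lo hi x) (hij : i ≤ j) {a m : ℕ} (ha : lo i < a) (ha' : a < hi i)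
    (hm : lo i ≤ m) (hm' : m + 1 ≤ hi i) :
    Disjoint (Tr x i a) {x i m, x i (m + 1)} ↔ m + 2 < a ∨ a + 1 < m := by
  rw [disjoint_right]
  simp only [mem_insert, mem_singleton, forall_eq_or_imp, forall_eq]
  rw [mem_Tr C hij ha ha' hm (by omega), mem_Tr C hij ha ha' (by omega) hm']
  omega

/-- a flip: position of the two pendants -/
lemma Cm5.flip_pos (K : Cm5 P r i t lo hi x S) (hM : Mat P i ∅ psi) {p p' y u : P} (hp : p ∈ S)
    (hp' : p' ∈ S) (h1 : p ∈ PD P i) (h2 : p' ∈ PU P i) (h3 : uc p = {y}) (h4 : dc p' = {u}) :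
    u = psi y ∨
      (lo i + 2 ≤ hi i ∧ dc u = {x i (lo i), x i (lo i + 1)} ∧
        uc y = {x i (lo i + 1), x i (lo i + 2)}) ∨
      (lo i + 2 ≤ hi i ∧ dc u = {x i (hi i - 1), x i (hi i)} ∧
        uc y = {x i (hi i - 2), x i (hi i - 1)}) := by
  have hpt := (K.hS p (lev_PD h1).1.le).1 hp
  have l2 := lev_PU h2
  have hpt' := (K.hS p' (by omega)).1 hp'
  obtain ⟨a, a1, a2, a3, a4, a5⟩ := K.pen_edge h1 hpt h3
  obtain ⟨b1, b2, b3, b4⟩ := K.PU_sites h2 hpt' h4
  have hly : lev y = i + 1 := by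
    rw [a3]
    have f1 := K.C.lo_ge i (by omega)
    have f2 := K.C.hi_le i (by omega)
    exact K.C.lev_x (i + 1) le_rfl a (by omega) (by omega)
  have hy2 : (uc y).card = 2 := by
    rw [a5]
    exact card_pair (K.C.inj i (by omega) _ _ (by omega) (by omega) a2)
  have hS5 := (near_level' K.g K.i1).2 t lo hi x K.ht K.C
  rcases b4 with ⟨c1, c2⟩ | ⟨c1, c2⟩
  · rcases hS5 with ⟨g1, -, -⟩ | ⟨-, -, b, hb, g3⟩ | ⟨-, g2, -⟩
    · exact absurd c1 g1
    · have g4 := g3 a a1 a2
      have hab : a = b := by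
        by_contra hne
        rw [if_neg hne] at g4
        omega
      subst hab
      rcases hb with hb | ⟨hb, hb'⟩
      · left
        refine psi_eq_of K.g hM hly hy2 ?_
        rw [c2, a5, hb, Nat.add_sub_cancel]
      · right
        left
        refine ⟨by omega, c2, ?_⟩
        rw [a5, hb, show lo i + 2 - 1 = lo i + 1 by omega]
    · exact absurd c1 g2
  · rcases hS5 with ⟨-, g1, -⟩ | ⟨-, g2, -⟩ | ⟨-, -, b, hb, g3⟩
    · exact absurd c1 g1
    · exact absurd c1 g2
    · have g4 := g3 a a1 a2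
      have hab : a = b := by
        by_contra hne
        rw [if_neg hne] at g4
        omega
      subst hab
      rcases hb with hb | ⟨hb, hb'⟩
      · left
        refine psi_eq_of K.g hM hly hy2 ?_
        rw [c2, a5, hb]
      · right
        right
        refine ⟨by omega, c2, ?_⟩
        rw [a5, show hi i - 1 = a by omega, show hi i - 2 = a - 1 by omega]

/-- the charge of a triple: no hypothesis on closed pairs -/
lemma Cm5.chg_Tr (K : Cm5 P r i t lo hi x S) (no : ∀ z : P, lev z = i + 2 → ¬ Hul.Jn z) {a : ℕ}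
    (ha : lo i < a) (ha' : a < hi i) :
    ∑ z ∈ (ZL i S ∪ ZU i S).filter (fun z => sit i z = Tr x i a), chg i S z =
      1 - dcv (x (i + 1) a) (x (i + 1) (a + 1)) := by
  have h3 := card_Tr K.C (by omega) ha ha'
  have e1 : (FL i S).filter (fun z => sit i z = Tr x i a) = ∅ := by
    rw [filter_eq_empty_iff]
    intro w hw he
    obtain ⟨-, z, hz, hu⟩ := mem_FL.1 hw
    have := card_sts_PD K.g.H hz
    rw [← sit_FL K.g.H hz hu, he] at this
    omega
  have e2 : (FU' i S).filter (fun z => sit i z = Tr x i a) = ∅ := by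
    rw [filter_eq_empty_iff]
    intro w hw he
    obtain ⟨-, z, hz, hu⟩ := mem_FU'.1 hw
    have := card_stD_PU K.g.H hz
    rw [← sit_FU K.g.H hz hu, he] at this
    omega
  have h4 := sum_chg (S := S) (i := i) K.g.H (fun z => sit i z = Tr x i a)
  unfold Chs at h4
  rw [filter_union, filter_union, e1, e2, union_empty, union_empty,
    card_ZU_Tr K.C K.g K.ht K.hS ha ha', card_ZL_Tr K.C K.g K.i1 K.ht K.hS no ha ha',
    card_empty] at h4
  rw [h4]
  push_cast
  ring

/-- closed pairs over a triple -/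
lemma Cm5.closed_Tr (K : Cm5 P r i t lo hi x S) (no : ∀ z : P, lev z = i + 2 → ¬ Hul.Jn z) {a : ℕ}
    (ha : lo i < a) (ha' : a < hi i) :
    dcv (x (i + 1) a) (x (i + 1) (a + 1)) * dcv (x (i + 1) a) (x (i + 1) (a + 1)) -
      dcv (x (i + 1) a) (x (i + 1) (a + 1)) ≤ (SO.O5 i S).card := by
  have f1 := K.C.lo_ge i (by omega)
  have f2 := K.C.hi_le i (by omega)
  have hne := K.C.inj (i + 1) le_rfl a (a + 1) (by omega) (by omega) (by omega)
  rw [← card_ZL_Tr K.C K.g K.i1 K.ht K.hS no ha ha', ← offDiag_card]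
  refine card_le_card ?_
  intro q hq
  rw [mem_offDiag, mem_filter, mem_filter] at hq
  obtain ⟨⟨h1, h2⟩, ⟨h3, h4⟩, h5⟩ := hq
  have key : ∀ z ∈ ZL i S, sit i z = Tr x i a → uc z = {x (i + 1) a, x (i + 1) (a + 1)} := by
    intro z hz hs
    obtain ⟨b, b1, b2, b3, b4, b5⟩ := ZL_spec K.C K.g K.i1 K.ht K.hS no hz
    have := Tr_inj K.C (by omega) b1 b2 ha ha' (b3.symm.trans hs)
    subst this
    exact StB_uc_pair K.g.H b4 b5 hne
  exact SO.mem_O5.2 ⟨h1, h3, h5, (key _ h1 h2).trans (key _ h3 h4).symm⟩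

/-- the sum over the pairs (charge, pendant) of a flip -/
lemma Cm5.sum_I5_aux (K : Cm5 P r i t lo hi x S) (no : ∀ z : P, lev z = i + 2 → ¬ Hul.Jn z)
    {p p' : P} (hp : p ∈ PD P i) (hp' : p' ∈ PU P i) (hPN : SO.PN i S = {p, p'}) (hne : p ≠ p')
    {c : ℕ} (hc : ∀ a, lo i < a → a < hi i → (Disjoint (Tr x i a) (sit i p) ↔
      Disjoint (Tr x i a) (sit i p') ∧ a ≠ c)) (hc' : lo i < c → c < hi i →
      Disjoint (Tr x i c) (sit i p')) :
    (∑ q ∈ SO.I5 i S, chg i S q.1 * SO.vp i q.2 = 0) ∨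
      (lo i < c ∧ c < hi i ∧ ∑ q ∈ SO.I5 i S, chg i S q.1 * SO.vp i q.2 =
        (dcv (x (i + 1) c) (x (i + 1) (c + 1)) : ℤ) - 1) := by
  classical
  have hsum : ∑ q ∈ SO.I5 i S, chg i S q.1 * SO.vp i q.2 = ∑ w ∈ ZL i S ∪ ZU i S,
      ((if Disjoint (sit i w) (sit i p) then chg i S w else 0) -
        (if Disjoint (sit i w) (sit i p') then chg i S w else 0)) := by
    unfold SO.I5
    rw [sum_filter, sum_product]
    refine sum_congr rfl fun w _ => ?_
    rw [hPN, sum_pair hne]
    show (if Disjoint (sit i w) (sit i p) then chg i S w * SO.vp i p else 0) +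
      (if Disjoint (sit i w) (sit i p') then chg i S w * SO.vp i p' else 0) = _
    rw [SO.vp_PD hp, SO.vp_PU hp']
    split_ifs <;> ring
  have hTr : ∀ w ∈ ZL i S ∪ ZU i S, ∃ a, lo i < a ∧ a < hi i ∧ sit i w = Tr x i a := by
    intro w hw
    rcases mem_union.1 hw with hw | hw
    · obtain ⟨a, a1, a2, a3, -⟩ := ZL_spec K.C K.g K.i1 K.ht K.hS no hw
      exact ⟨a, a1, a2, a3⟩
    · obtain ⟨a, a1, a2, a3, -⟩ := ZU_spec K.C K.g K.ht K.hS hw
      exact ⟨a, a1, a2, a3⟩
  by_cases hr : lo i < c ∧ c < hi i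
  · right
    refine ⟨hr.1, hr.2, ?_⟩
    have h2 : ∀ w ∈ ZL i S ∪ ZU i S,
        ((if Disjoint (sit i w) (sit i p) then chg i S w else 0) -
          (if Disjoint (sit i w) (sit i p') then chg i S w else 0)) =
        - (if sit i w = Tr x i c then chg i S w else 0) := by
      intro w hw
      obtain ⟨a, a1, a2, a3⟩ := hTr w hw
      rw [a3]
      by_cases hac : a = c
      · subst hac
        rw [if_neg (fun h => ((hc a a1 a2).1 h).2 rfl), if_pos (hc' a1 a2), if_pos rfl]
        ring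
      · rw [if_neg (fun h => hac (Tr_inj K.C (by omega) a1 a2 hr.1 hr.2 h))]
        by_cases hd : Disjoint (Tr x i a) (sit i p')
        · rw [if_pos ((hc a a1 a2).2 ⟨hd, hac⟩), if_pos hd]
          ring
        · rw [if_neg (fun h => hd ((hc a a1 a2).1 h).1), if_neg hd]
          ring
    rw [hsum, sum_congr rfl h2, sum_neg_distrib, ← sum_filter, K.chg_Tr no hr.1 hr.2]
    ring
  · left
    rw [hsum]
    refine sum_eq_zero fun w hw => ?_
    obtain ⟨a, a1, a2, a3⟩ := hTr w hw
    have hac : a ≠ c := by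
      rintro rfl
      exact hr ⟨a1, a2⟩
    rw [a3]
    by_cases hd : Disjoint (Tr x i a) (sit i p')
    · rw [if_pos ((hc a a1 a2).2 ⟨hd, hac⟩), if_pos hd]
      ring
    · rw [if_neg (fun h => hd ((hc a a1 a2).1 h).1), if_neg hd]
      ring

/-- the sites of a flip -/
lemma Cm5.flip_sites (K : Cm5 P r i t lo hi x S) {p p' y u : P} (h1 : p ∈ PD P i)
    (h2 : p' ∈ PU P i) (h3 : uc p = {y}) (h4 : dc p' = {u})
    (hpos : (lo i + 2 ≤ hi i ∧ dc u = {x i (lo i), x i (lo i + 1)} ∧
        uc y = {x i (lo i + 1), x i (lo i + 2)}) ∨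
      (lo i + 2 ≤ hi i ∧ dc u = {x i (hi i - 1), x i (hi i)} ∧
        uc y = {x i (hi i - 2), x i (hi i - 1)})) :
    (sit i p ∩ sit i p').card = 1 ∧ ∃ c, (∀ a, lo i < a → a < hi i →
      (Disjoint (Tr x i a) (sit i p) ↔ Disjoint (Tr x i a) (sit i p') ∧ a ≠ c)) ∧
      (lo i < c → c < hi i → Disjoint (Tr x i c) (sit i p')) := by
  have l1 := lev_PD h1
  have l2 := lev_PU h2
  rw [sit_low K.g.H (by omega), sit_upp K.g.H (by omega), ClE_sts K.g.H l1.1 h3,
    ClE_stD K.g.H l2.1 h4]
  rcases hpos with ⟨hb, hu, hy⟩ | ⟨hb, hu, hy⟩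
  · have n2 := K.C.inj i (by omega) (lo i) (lo i + 2) (by omega) (by omega) (by omega)
    rw [hu, hy]
    constructor
    · rw [card_eq_one]
      refine ⟨x i (lo i + 1), ?_⟩
      ext v
      simp only [mem_inter, mem_insert, mem_singleton]
      constructor
      · rintro ⟨h5 | h5, h6 | h6⟩
        · exact h5
        · exact h5
        · rw [h5] at h6
          exact absurd h6.symm n2
        · exact h6
      · rintro rfl
        exact ⟨Or.inl rfl, Or.inr rfl⟩
    · refine ⟨lo i + 3, ?_, ?_⟩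
      · intro a a1 a2
        rw [disj_Tr K.C (by omega) a1 a2 (by omega) (by omega),
          disj_Tr K.C (by omega) a1 a2 (by omega) (by omega)]
        omega
      · intro c1 c2
        rw [disj_Tr K.C (by omega) c1 c2 (by omega) (by omega)]
        omega
  · obtain ⟨n, hn⟩ : ∃ n, hi i = n + 2 := ⟨hi i - 2, by omega⟩
    have n2 := K.C.inj i (by omega) (hi i - 2) (hi i) (by omega) (by omega) (by omega)
    rw [hu, hy]
    have e1 : hi i - 1 = n + 1 := by omega
    have e2 : hi i - 2 = n := by omega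
    constructor
    · rw [card_eq_one]
      refine ⟨x i (hi i - 1), ?_⟩
      ext v
      simp only [mem_inter, mem_insert, mem_singleton]
      constructor
      · rintro ⟨h5 | h5, h6 | h6⟩
        · exact h6
        · rw [h5] at h6
          exact absurd h6 n2
        · exact h5
        · exact h5
      · rintro rfl
        exact ⟨Or.inr rfl, Or.inl rfl⟩
    · rw [e1, e2, hn]
      refine ⟨n - 1, ?_, ?_⟩
      · intro a a1 a2
        rw [disj_Tr K.C (by omega) a1 (by omega) (by omega) (by omega),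
          disj_Tr K.C (by omega) a1 (by omega) (by omega) (by omega)]
        omega
      · intro c1 c2
        rw [disj_Tr K.C (by omega) c1 (by omega) (by omega) (by omega)]
        omega

/-- (5,2) of a component is at most zero, and zero only without closed pairs and flips -/
theorem Cm5.five (K : Cm5 P r i t lo hi x S) (no : ∀ z : P, lev z = i + 2 → ¬ Hul.Jn z)
    (hM : Mat P i ∅ psi) (hb : 1 ≤ (st i S).card) :
    I2.be 5 (st i S).card (ZS i S) ≤ 0 ∧
      (I2.be 5 (st i S).card (ZS i S) = 0 → SO.O5 i S = ∅ ∧ SO.F5 i S = ∅) := by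
  classical
  have Q := K.ps5 hM
  have H := K.g.H
  have hmain := Q.five_gen hb
  suffices hs : (∑ q ∈ SO.I5 i S, chg i S q.1 * SO.vp i q.2 = 0) ∨
      2 * (∑ q ∈ SO.I5 i S, chg i S q.1 * SO.vp i q.2) - ((SO.O5 i S).card : ℤ) -
        2 * (SO.F5 i S).card < 0 by
    rcases hs with hs | hs
    · rw [hs] at hmain
      constructor
      · omega
      · intro h0
        rw [h0] at hmain
        constructor
        · rw [← card_eq_zero]
          omega
        · rw [← card_eq_zero]
          omega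
    · constructor
      · omega
      · intro h0
        omega
  by_cases hp : ∃ p ∈ S, p ∈ PD P i
  swap
  · left
    have hI : SO.I5 i S = ∅ := by
      rw [eq_empty_iff_forall_notMem]
      intro q hq
      obtain ⟨h1, h2⟩ := SO.mem_PN.1 (SO.mem_I5.1 hq).2.1
      rcases h2 with h2 | h2
      · exact hp ⟨_, h1, h2⟩
      · have h3 := K.card_PP
        have h4 : 0 < (S.filter (· ∈ PU P i)).card := card_pos.2 ⟨_, mem_filter.2 ⟨h1, h2⟩⟩
        rw [← h3, card_pos] at h4
        obtain ⟨p, h5⟩ := h4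
        rw [mem_filter] at h5
        exact hp ⟨p, h5⟩
    rw [hI, sum_empty]
  obtain ⟨p, hpS, hp⟩ := hp
  obtain ⟨p', hpS', hp'⟩ : ∃ p' ∈ S, p' ∈ PU P i := by
    have h3 := K.card_PP
    have h4 : 0 < (S.filter (· ∈ PD P i)).card := card_pos.2 ⟨_, mem_filter.2 ⟨hpS, hp⟩⟩
    rw [h3, card_pos] at h4
    obtain ⟨p, h5⟩ := h4
    rw [mem_filter] at h5
    exact ⟨p, h5⟩
  obtain ⟨y, a1, a2, a3, a4, -⟩ := SO.PD_data H hp
  obtain ⟨u, b1, b2, b3, b4, -⟩ := SO.PU_data H hp'
  have hPN : SO.PN i S = {p, p'} := by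
    ext z
    rw [SO.mem_PN, mem_insert, mem_singleton]
    constructor
    · rintro ⟨h1, h2 | h2⟩
      · exact Or.inl (Q.pd z h1 p hpS h2 hp)
      · exact Or.inr (Q.pu z h1 p' hpS' h2 hp')
    · rintro (rfl | rfl)
      · exact ⟨hpS, Or.inl hp⟩
      · exact ⟨hpS', Or.inr hp'⟩
  have hne : p ≠ p' := by
    rintro rfl
    have := lev_PD hp
    have := lev_PU hp'
    omega
  rcases K.flip_pos hM hpS hpS' hp hp' a1 b1 with h | h
  · -- the same sites
    left
    have hs : sit i p = sit i p' := by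
      rw [SO.sit_PD H a2 a1, SO.sit_PU H b2 b1, h]
      have hdb : y ∈ dbL P i := by
        unfold dbL
        rw [mem_filter]
        exact ⟨mem_univ _, a3, a4⟩
      exact (hM.low y hdb (by simp)).2.symm
    unfold SO.I5
    rw [sum_filter, sum_product]
    apply sum_eq_zero
    intro w _
    rw [hPN, sum_pair hne]
    show (if Disjoint (sit i w) (sit i p) then chg i S w * SO.vp i p else 0) +
      (if Disjoint (sit i w) (sit i p') then chg i S w * SO.vp i p' else 0) = 0
    rw [hs, SO.vp_PD hp, SO.vp_PU hp']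
    split_ifs <;> ring
  · -- a flip
    right
    obtain ⟨h1, c, hc, hc'⟩ := K.flip_sites hp hp' a1 b1 h
    have hF : 1 ≤ (SO.F5 i S).card :=
      card_pos.2 ⟨(p, p'), SO.mem_F5.2 ⟨hpS, hp, hpS', hp', h1⟩⟩
    rcases K.sum_I5_aux no hp hp' hPN hne hc hc' with g | ⟨g1, g2, g3⟩
    · rw [g]
      omega
    · rw [g3]
      have g4 := K.closed_Tr no g1 g2
      set D := dcv (x (i + 1) c) (x (i + 1) (c + 1)) with hD
      have g5 : (D : ℤ) * D - D ≤ (SO.O5 i S).card := by
        have : D ≤ D * D := Nat.le_mul_self D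
        zify [this] at g4
        exact g4
      have g6 : (1 : ℤ) ≤ (SO.F5 i S).card := by exact_mod_cast hF
      nlinarith [sq_nonneg (2 * (D : ℤ) - 3)]

/-- no closed pair -/
lemma Cm5.ncl (K : Cm5 P r i t lo hi x S) (h : SO.O5 i S = ∅) : Ncl i S := by
  intro w hw w' hw' v v' hl hne h1 h2 h3 h4
  by_contra hww
  have m1 : w ⋖ v := by rw [← mem_uc, h1]; exact mem_insert_self _ _
  have m2 : w ⋖ v' := by rw [← mem_uc, h1]; exact mem_insert_of_mem (mem_singleton_self _)
  have m3 : w' ⋖ v := by rw [← mem_uc, h2]; exact mem_insert_self _ _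
  have l1 := lev_cov K.g.H m1
  have l3 := lev_cov K.g.H m3
  have hu : ucv v v' = 1 := by
    rcases (near_level' K.g K.i1).1 w v v' hl m1 m2 hne with g | ⟨g, -, -⟩
    · exact g
    · omega
  have key : ∀ z ∈ S, lev z = i + 2 → uc z = {v, v'} → z ∈ ZL i S := by
    intro z hz hlz hzu
    refine mem_ZL.2 ⟨hz, hlz, ?_⟩
    have h5 : sts i z = uc v ∪ uc v' := by
      ext s
      rw [mem_sts, mem_union]
      constructor
      · rintro ⟨g1, g2⟩
        obtain ⟨y, g3, g4⟩ := exists_covBy_le_of_lt g2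
        have g5 := lev_cov K.g.H g3
        obtain ⟨y', g6, g7⟩ := exists_covBy_le_of_lt (lt_of_le_of_ne g4 (by rintro rfl; omega))
        have g8 := lev_cov K.g.H g6
        have g9 : y' = s := by
          rcases eq_or_lt_of_le g7 with g | g
          · exact g
          · have := lev_strict K.g.H g
            omega
        subst g9
        rw [← mem_uc, hzu, mem_insert, mem_singleton] at g3
        rcases g3 with rfl | rfl
        · exact Or.inl (mem_uc.2 g6)
        · exact Or.inr (mem_uc.2 g6)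
      · rintro (g | g)
        · have g1 := mem_uc.1 g
          have g2 : z ⋖ v := by rw [← mem_uc, hzu]; exact mem_insert_self _ _
          have := lev_cov K.g.H g1
          exact ⟨by omega, g2.lt.trans g1.lt⟩
        · have g1 := mem_uc.1 g
          have g2 : z ⋖ v' := by
            rw [← mem_uc, hzu]; exact mem_insert_of_mem (mem_singleton_self _)
          have := lev_cov K.g.H g1
          have := lev_cov K.g.H m2
          exact ⟨by omega, g2.lt.trans g1.lt⟩
    have h6 := card_union_add_card_inter (uc v) (uc v')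
    rw [card_uc_inter, hu, h3, h4] at h6
    rw [← card_sts, h5]
    omega
  have : (w, w') ∈ SO.O5 i S := SO.mem_O5.2 ⟨key w hw hl h1, key w' hw' (by omega) h2, hww,
    h1.trans h2.symm⟩
  rw [h] at this
  exact absurd this (notMem_empty _)

/-- no flip -/
lemma Cm5.nfl (K : Cm5 P r i t lo hi x S) (hM : Mat P i ∅ psi) (h : SO.F5 i S = ∅) :
    Nfl i S := by
  intro p hp q hq h1 h2
  have H := K.g.H
  obtain ⟨y, a1, a2, a3, a4, -⟩ := SO.PD_data H h1
  obtain ⟨u, b1, b2, b3, b4, -⟩ := SO.PU_data H h2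
  rcases K.flip_pos hM hp hq h1 h2 a1 b1 with g | g
  · have hs : sit i p = sit i q := by
      rw [SO.sit_PD H a2 a1, SO.sit_PU H b2 b1, g]
      have hdb : y ∈ dbL P i := by
        unfold dbL
        rw [mem_filter]
        exact ⟨mem_univ _, a3, a4⟩
      exact (hM.low y hdb (by simp)).2.symm
    have l1 := lev_PD h1
    have l2 := lev_PU h2
    rw [sit_low H (by omega), sit_upp H (by omega)] at hs
    exact hs
  · obtain ⟨g1, -⟩ := K.flip_sites h1 h2 a1 b1 g
    have : (p, q) ∈ SO.F5 i S := SO.mem_F5.2 ⟨hp, h1, hq, h2, g1⟩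
    rw [h] at this
    exact absurd this (notMem_empty _)

/-- THEOREM S9 at the window `i = j - 1`: no join on the level `j + 1` and no element of `Z2` -/
theorem S9_final (h : GoodTo P r (i + 1)) (hi1 : 1 ≤ i) (hr : i + 2 ≤ r)
    (hno : ∀ z : P, lev z = i + 2 → ¬ Hul.Jn z)
    (hZ : ∀ v, lev v = i + 3 → v ∉ cuni (i + 2) (topOf : P → Tops P) → up (i + 1) v = 2 →
      up i v ≤ 3)
    (hsh : ∀ t : Tops P, ∃ lo hi e, Cp.Comp (i + 1) (t : P) lo hi e ∧
      Pool.Agent.GaussPoset.Wd.Shape (i + 1) lo hi) :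
    (∀ t : P, lev t = 0 → T6case P (i + 1) t) ∧ So.N5s i (topOf : P → Tops P) = ∅ := by
  obtain ⟨psi, hM⟩ := good_mat h.H (h.good i (by omega))
  refine S9_all h hi1 hr hno hZ hsh (fun t => ?_) (fun t h3 => ?_) (fun t h3 h4 h5 => ?_)
  · obtain ⟨lo, hi, e, C, -⟩ := hsh t
    have K := cm5_no h hi1 hno t C.toWin
    exact (K.ps5 hM).prof5 K.card_PP
  · obtain ⟨lo, hi, e, C, -⟩ := hsh t
    have K := cm5_no h hi1 hno t C.toWin
    obtain ⟨g1, g2⟩ := K.five hno hM (by omega)
    refine ⟨g1, fun h0 => ?_⟩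
    obtain ⟨g3, g4⟩ := g2 h0
    exact ⟨K.ncl g3, K.nfl hM g4⟩
  · obtain ⟨lo, hi, e, C, -⟩ := hsh t
    have K := (cm5_no h hi1 hno t C.toWin).to6 h4 h5
    have Q := K.ps6 hM
    refine ⟨Q.top6, (SO.N1f i (cext (i + 2) (topOf : P → Tops P) t)).card +
      (SO.N5f i (cext (i + 2) (topOf : P → Tops P) t)).card, ?_, ?_⟩
    · rw [Q.six' (by omega)]
      push_cast
      ring
    · intro h0 z hz w hw hzw
      have h1 : z ∈ SO.N1f i (cext (i + 2) (topOf : P → Tops P) t) := by
        refine SO.mem_N1f.2 ⟨hz, Or.inl ⟨?_, w, hw, hzw⟩⟩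
        have l1 := (mem_ZL.1 hw).2.1
        have l2 : z ⋖ w := by rw [← mem_uc, hzw]; exact mem_singleton_self _
        have := lev_cov h.H l2
        omega
      have h2 := card_pos.2 ⟨z, h1⟩
      omega

end Pool.Agent.GaussPoset.Win
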