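import Pool.Agent.W_448so_h39.FF

/-!
# S9 (MP_448cb3_co): the quadratic form of the charges is nonnegative
-/

namespace Pool.Agent.GaussPoset.Win

set_option linter.unusedSectionVars false

open Finset

universe u

variable {P : Type u} [Fintype P] [PartialOrder P] [DecidableEq P] {r i j : ℕ} {t : P}
  {lo hi : ℕ → ℕ} {x : ℕ → ℕ → P} {S : Finset P}

lemma card_sts_PD (H : Gr P r) {z : P} (hz : z ∈ PD P i) : (sts i z).card = 2 := by
  obtain ⟨h1, h2, w, hw, hw2⟩ := mem_PD.1 hz
  obtain ⟨v, hv⟩ := card_eq_one.1 h2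
  have hwv : w = v := by
    rw [← mem_uc, hv, mem_singleton] at hw
    exact hw
  subst hwv
  rw [ClE_sts H h1 hv]
  exact hw2

lemma card_stD_PU (H : Gr P r) {z : P} (hz : z ∈ PU P i) : (stD i z).card = 2 := by
  obtain ⟨h1, h2, w, hw, hw2⟩ := mem_PU.1 hz
  obtain ⟨v, hv⟩ := card_eq_one.1 h2
  have hwv : w = v := by
    rw [← mem_dc, hv, mem_singleton] at hw
    exact hw
  subst hwv
  rw [ClE_stD H h1 hv]
  exact hw2

/-- the triples of consecutive sites -/
def Trs (x : ℕ → ℕ → P) (lo hi : ℕ → ℕ) (i : ℕ) : Finset (Finset P) :=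
  (Ioo (lo i) (hi i)).image (Tr x i)

/-- the total charge at a set of sites -/
noncomputable def phc (i : ℕ) (S : Finset P) (k : Finset P) : ℤ :=
  ∑ z ∈ (Chs i S).filter (fun z => sit i z = k), chg i S z

/-- the assumptions on a component at the window `i` -/
structure Cmp (P : Type u) [Fintype P] [PartialOrder P] [DecidableEq P] (r i : ℕ) (t : P)
    (lo hi : ℕ → ℕ) (x : ℕ → ℕ → P) (S : Finset P) : Prop where
  g : GoodTo P r (i + 1)
  i1 : 1 ≤ i
  ht : lev t = 0
  C : Comp P t (i + 1) lo hi x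
  /-- no join on level `i + 2` -/
  no : ∀ z : P, lev z = i + 2 → ¬ Hul.Jn z
  hS : ∀ y, lev y ≤ i + 2 → (y ∈ S ↔ y ≤ t)
  up : ∀ {v y : P}, v ∈ S → v ⋖ y → y ∈ S
  /-- not closed -/
  dcl : ∀ a, lo i < a → a < hi i → dcv (x (i + 1) a) (x (i + 1) (a + 1)) ≤ 1
  /-- not a flip -/
  fl : ∀ p ∈ PD P i, p ≤ t → ∀ q ∈ PU P i, q ≤ t → sts i p = stD i q

variable (K : Cmp P r i t lo hi x S)

include K

lemma Cmp.FL_le {w : P} (hw : w ∈ FL i S) : ∃ z ∈ PD P i, z ≤ t ∧ sit i w = sts i z := by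
  obtain ⟨h1, z, hz, hu⟩ := mem_FL.1 hw
  have h2 : w ⋖ z := by
    rw [← mem_uc, hu]
    exact mem_singleton_self z
  exact ⟨z, hz, (K.hS z (lev_PD hz).1.le).1 (K.up h1 h2), sit_FL K.g.H hz hu⟩

lemma Cmp.FU_le {w : P} (hw : w ∈ FU' i S) : ∃ z ∈ PU P i, z ≤ t ∧ sit i w = stD i z := by
  obtain ⟨h1, z, hz, hu⟩ := mem_FU'.1 hw
  have h2 : z ⋖ w := by
    rw [← mem_dc, hu]
    exact mem_singleton_self z
  have h3 := lev_FU K.g.H hw
  exact ⟨z, hz, h2.le.trans ((K.hS w (by omega)).1 h1), sit_FU K.g.H hz hu⟩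

/-- the total charge of a triple -/
lemma Cmp.phc_Tr {a : ℕ} (ha : lo i < a) (ha' : a < hi i) :
    phc i S (Tr x i a) = 1 - dcv (x (i + 1) a) (x (i + 1) (a + 1)) := by
  have h3 := card_Tr K.C (by omega) ha ha'
  unfold phc
  rw [sum_chg K.g.H, card_ZU_Tr K.C K.g K.ht K.hS ha ha',
    card_ZL_Tr K.C K.g K.i1 K.ht K.hS K.no ha ha']
  have e1 : (FL i S).filter (fun z => sit i z = Tr x i a) = ∅ := by
    rw [filter_eq_empty_iff]
    intro w hw he
    obtain ⟨z, hz, -, hs⟩ := K.FL_le hw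
    have := card_sts_PD K.g.H hz
    rw [← hs, he] at this
    omega
  have e2 : (FU' i S).filter (fun z => sit i z = Tr x i a) = ∅ := by
    rw [filter_eq_empty_iff]
    intro w hw he
    obtain ⟨z, hz, -, hs⟩ := K.FU_le hw
    have := card_stD_PU K.g.H hz
    rw [← hs, he] at this
    omega
  rw [e1, e2, card_empty]
  push_cast
  ring

lemma Cmp.phc_nonneg : ∀ k ∈ Trs x lo hi i, 0 ≤ phc i S k := by
  intro k hk
  unfold Trs at hk
  obtain ⟨a, ha, rfl⟩ := mem_image.1 hk
  rw [mem_Ioo] at ha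
  rw [K.phc_Tr ha.1 ha.2]
  have := K.dcl a ha.1 ha.2
  omega

lemma Cmp.refl : ∀ k ∈ Trs x lo hi i, ¬ Disjoint k k := by
  intro k hk
  unfold Trs at hk
  obtain ⟨a, ha, rfl⟩ := mem_image.1 hk
  rw [disjoint_self]
  intro h1
  rw [mem_Ioo] at ha
  have := card_Tr K.C (by omega) ha.1 ha.2
  rw [h1] at this
  exact absurd this (by norm_num)

/-- the form as a quadratic form of the charges of the triples and the charge `c` of the chains -/
theorem Cmp.QQ_eq : ∃ N ⊆ Trs x lo hi i, (∀ k ∈ N, ∀ l ∈ N, ¬ Disjoint k l) ∧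
    QQ i S = So.qf (Trs x lo hi i) (fun k l => ¬ Disjoint k l) (phc i S) +
      2 * ((FL i S).card - (FU' i S).card) * ∑ k ∈ N, phc i S k +
      ((FL i S).card - (FU' i S).card) ^ 2 := by
  classical
  have hZ : ∀ z ∈ ZL i S ∪ ZU i S, sit i z ∈ Trs x lo hi i := by
    intro z hz
    unfold Trs
    rw [mem_image]
    rcases mem_union.1 hz with hz | hz
    · obtain ⟨a, a1, a2, a3, -⟩ := ZL_spec K.C K.g K.i1 K.ht K.hS K.no hz
      exact ⟨a, mem_Ioo.2 ⟨a1, a2⟩, a3.symm⟩
    · obtain ⟨a, a1, a2, a3, -⟩ := ZU_spec K.C K.g K.ht K.hS hz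
      exact ⟨a, mem_Ioo.2 ⟨a1, a2⟩, a3.symm⟩
  obtain ⟨hc1, hc2⟩ := indiv_21 K.g i le_rfl t K.ht
  by_cases hPU : PUt i t = ∅
  · -- no chains
    have hPD : PDt i t = ∅ := by
      rw [hPU, card_empty] at hc2
      exact card_eq_zero.1 hc2
    have hFL : FL i S = ∅ := by
      rw [eq_empty_iff_forall_notMem]
      intro w hw
      obtain ⟨z, hz, hzt, -⟩ := K.FL_le hw
      have : z ∈ PDt i t := mem_PDt.2 ⟨hz, hzt⟩
      rw [hPD] at this
      exact absurd this (notMem_empty z)
    have hFU : FU' i S = ∅ := by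
      rw [eq_empty_iff_forall_notMem]
      intro w hw
      obtain ⟨z, hz, hzt, -⟩ := K.FU_le hw
      have : z ∈ PUt i t := mem_PUt.2 ⟨hz, hzt⟩
      rw [hPU] at this
      exact absurd this (notMem_empty z)
    refine ⟨∅, empty_subset _, by simp, ?_⟩
    rw [hFL, hFU, card_empty]
    have hf : ∀ z ∈ Chs i S, sit i z ∈ Trs x lo hi i := by
      intro z hz
      unfold Chs at hz
      rw [hFL, hFU, union_empty, union_empty] at hz
      exact hZ z hz
    have key := So.qf_fiber (Chs i S) (Trs x lo hi i) (sit i) hf (chg i S)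
      (fun k l => ¬ Disjoint k l)
    simp only [ite_not] at key
    unfold QQ
    rw [key]
    simp only [sum_empty, mul_zero, add_zero, Nat.cast_zero, sub_zero, ne_eq, OfNat.ofNat_ne_zero,
      not_false_eq_true, zero_pow]
    rfl
  · -- the pair of sites of the chains
    obtain ⟨y, hy⟩ := nonempty_iff_ne_empty.2 hPU
    obtain ⟨hy1, hyt⟩ := mem_PUt.1 hy
    have hyl := lev_PU hy1
    obtain ⟨q, q1, q2, q3, hE⟩ : ∃ q, lo i ≤ q ∧ q + 1 ≤ hi i ∧ (q = lo i ∨ q + 1 = hi i) ∧
        stD i y = {x i q, x i (q + 1)} := by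
      obtain ⟨m, rfl⟩ : ∃ m, i = m + 2 := ⟨i - 2, by omega⟩
      obtain ⟨h1, h2⟩ := K.C.PU_cases K.g K.ht (by omega) hy1 hyt
      rcases h2 with ⟨-, -, -, h2⟩ | ⟨-, -, -, h2⟩
      · exact ⟨lo (m + 2), le_rfl, h1, Or.inl rfl, h2⟩
      · refine ⟨hi (m + 2) - 1, by omega, by omega, Or.inr (by omega), ?_⟩
        rw [h2, Nat.sub_add_cancel (by omega)]
    set E := stD i y with hEdef
    have hEc : E.card = 2 := card_stD_PU K.g.H hy1
    have hEFL : ∀ w ∈ FL i S, sit i w = E := by
      intro w hw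
      obtain ⟨z, hz, hzt, hs⟩ := K.FL_le hw
      rw [hs]
      exact K.fl z hz hzt y hy1 hyt
    have hEFU : ∀ w ∈ FU' i S, sit i w = E := by
      intro w hw
      obtain ⟨z, hz, hzt, hs⟩ := K.FU_le hw
      have hzy : z = y := card_le_one.1 hc1 z (mem_PUt.2 ⟨hz, hzt⟩) y hy
      rw [hs, hzy]
    have hEI : E ∉ Trs x lo hi i := by
      intro h1
      unfold Trs at h1
      obtain ⟨a, ha, he⟩ := mem_image.1 h1
      rw [mem_Ioo] at ha
      have := card_Tr K.C (by omega) ha.1 ha.2
      rw [he] at this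
      omega
    have hEE : ¬ Disjoint E E := by
      rw [disjoint_self]
      intro h1
      rw [h1] at hEc
      exact absurd hEc (by norm_num)
    have hphE : phc i S E = (FL i S).card - (FU' i S).card := by
      unfold phc
      rw [sum_chg K.g.H]
      have e1 : (ZU i S).filter (fun z => sit i z = E) = ∅ := by
        rw [filter_eq_empty_iff]
        intro z hz he
        have := hZ z (mem_union_right _ hz)
        rw [he] at this
        exact hEI this
      have e2 : (ZL i S).filter (fun z => sit i z = E) = ∅ := by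
        rw [filter_eq_empty_iff]
        intro z hz he
        have := hZ z (mem_union_left _ hz)
        rw [he] at this
        exact hEI this
      rw [e1, e2, card_empty, filter_true_of_mem hEFL, filter_true_of_mem hEFU]
      push_cast
      ring
    have hf : ∀ z ∈ Chs i S, sit i z ∈ insert E (Trs x lo hi i) := by
      intro z hz
      unfold Chs at hz
      rcases mem_union.1 hz with hz | hz
      · rcases mem_union.1 hz with hz | hz
        · exact mem_insert_of_mem (hZ z hz)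
        · rw [hEFL z hz]
          exact mem_insert_self _ _
      · rw [hEFU z hz]
        exact mem_insert_self _ _
    refine ⟨(Trs x lo hi i).filter (fun k => ¬ Disjoint E k), filter_subset _ _, ?_, ?_⟩
    · -- a common site
      obtain ⟨c, hc, hc'⟩ : ∃ c, lo i ≤ c ∧ c ≤ hi i ∧
          ∀ k ∈ (Trs x lo hi i).filter (fun k => ¬ Disjoint E k), x i c ∈ k := by
        rcases q3 with q3 | q3
        · refine ⟨q + 1, by omega, by omega, ?_⟩
          intro k hk
          obtain ⟨hk1, hk2⟩ := mem_filter.1 hk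
          unfold Trs at hk1
          obtain ⟨a, ha, rfl⟩ := mem_image.1 hk1
          rw [mem_Ioo] at ha
          rw [mem_Tr K.C (by omega) ha.1 ha.2 (by omega) (by omega)]
          rw [not_disjoint_iff] at hk2
          obtain ⟨v, v1, v2⟩ := hk2
          rw [hE, mem_insert, mem_singleton] at v1
          rcases v1 with rfl | rfl
          · rw [mem_Tr K.C (by omega) ha.1 ha.2 (by omega) (by omega)] at v2
            omega
          · rw [mem_Tr K.C (by omega) ha.1 ha.2 (by omega) (by omega)] at v2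
            omega
        · refine ⟨q, by omega, by omega, ?_⟩
          intro k hk
          obtain ⟨hk1, hk2⟩ := mem_filter.1 hk
          unfold Trs at hk1
          obtain ⟨a, ha, rfl⟩ := mem_image.1 hk1
          rw [mem_Ioo] at ha
          rw [mem_Tr K.C (by omega) ha.1 ha.2 (by omega) (by omega)]
          rw [not_disjoint_iff] at hk2
          obtain ⟨v, v1, v2⟩ := hk2
          rw [hE, mem_insert, mem_singleton] at v1
          rcases v1 with rfl | rfl
          · rw [mem_Tr K.C (by omega) ha.1 ha.2 (by omega) (by omega)] at v2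
            omega
          · rw [mem_Tr K.C (by omega) ha.1 ha.2 (by omega) (by omega)] at v2
            omega
      intro k hk l hl
      rw [not_disjoint_iff]
      exact ⟨x i c, hc'.2 k hk, hc'.2 l hl⟩
    · have key := So.qf_fiber (Chs i S) (insert E (Trs x lo hi i)) (sit i) hf (chg i S)
        (fun k l => ¬ Disjoint k l)
      have key2 := So.qf_insert (I := Trs x lo hi i) (fun k l => ¬ Disjoint k l)
        (fun k l h1 => by rwa [disjoint_comm]) hEI hEE (phc i S)
      simp only [ite_not] at key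
      unfold QQ
      rw [key, ← hphE]
      exact key2

/-- the form is nonnegative -/
theorem Cmp.QQ_nonneg : 0 ≤ QQ i S := by
  obtain ⟨N, h1, h2, h3⟩ := K.QQ_eq
  rw [h3]
  exact So.qf_add_nonneg _ _ h1 h2 K.refl K.phc_nonneg _

/-- the form vanishes: no charges, if there is no upper chain -/
theorem Cmp.QQ_zero (hQ : QQ i S ≤ 0) (hU : FU' i S = ∅) :
    FL i S = ∅ ∧ ∀ a, lo i < a → a < hi i → dcv (x (i + 1) a) (x (i + 1) (a + 1)) = 1 := by
  obtain ⟨N, h1, h2, h3⟩ := K.QQ_eq
  rw [h3, hU, card_empty] at hQ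
  obtain ⟨h4, h5⟩ := So.qf_add_zero' _ _ h1 h2 K.refl K.phc_nonneg
    (show (0 : ℤ) ≤ ((FL i S).card : ℤ) - ((0 : ℕ) : ℤ) by omega) hQ
  refine ⟨?_, ?_⟩
  · rw [← card_eq_zero]
    push_cast at h4
    omega
  · intro a ha ha'
    have h6 := h5 (Tr x i a) (mem_image_of_mem _ (mem_Ioo.2 ⟨ha, ha'⟩))
    rw [K.phc_Tr ha ha'] at h6
    omega

end Pool.Agent.GaussPoset.Win
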