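import Mathlib

/-!
# S9 (MP_448cb3_co): the quadratic form of the charges, arithmetic
-/

namespace Pool.Agent.GaussPoset.So

open Finset

variable {ι : Type*} [DecidableEq ι]

/-- the sum over the ordered pairs in a symmetric relation -/
def qf (I : Finset ι) (M : ι → ι → Prop) [DecidableRel M] (φ : ι → ℤ) : ℤ :=
  ∑ k ∈ I, ∑ l ∈ I, if M k l then φ k * φ l else 0

/-- nonnegative charges: the form is at least the square of the sum over the near set plus the squares -/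
theorem qf_ge (I : Finset ι) (M : ι → ι → Prop) [DecidableRel M] {φ : ι → ℤ} {N : Finset ι}
    (hN : N ⊆ I) (hM : ∀ k ∈ N, ∀ l ∈ N, M k l) (hr : ∀ k ∈ I, M k k) (h0 : ∀ k ∈ I, 0 ≤ φ k) :
    (∑ k ∈ N, φ k) ^ 2 + ∑ k ∈ I \ N, φ k ^ 2 ≤ qf I M φ := by
  have key : ∀ k ∈ I, (if k ∈ N then φ k * ∑ l ∈ N, φ l else φ k ^ 2) ≤
      ∑ l ∈ I, if M k l then φ k * φ l else 0 := by
    intro k hk
    have hnn : ∀ l ∈ I, 0 ≤ (if M k l then φ k * φ l else 0) := by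
      intro l hl
      split_ifs
      · exact mul_nonneg (h0 k hk) (h0 l hl)
      · exact le_rfl
    split_ifs with h1
    · rw [mul_sum]
      refine le_trans (le_of_eq ?_) (sum_le_sum_of_subset_of_nonneg hN fun l hl _ => hnn l hl)
      exact sum_congr rfl fun l hl => by rw [if_pos (hM k h1 l hl)]
    · refine le_trans (le_of_eq ?_) (single_le_sum hnn hk)
      rw [if_pos (hr k hk)]
      ring
  have h1 : ∑ k ∈ I, (if k ∈ N then φ k * ∑ l ∈ N, φ l else φ k ^ 2) =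
      (∑ k ∈ N, φ k) ^ 2 + ∑ k ∈ I \ N, φ k ^ 2 := by
    rw [← sum_sdiff hN, add_comm]
    congr 1
    · rw [pow_two, sum_mul]
      exact sum_congr rfl fun k hk => by rw [if_pos hk]
    · exact sum_congr rfl fun k hk => by rw [if_neg (mem_sdiff.1 hk).2]
  rw [← h1]
  exact sum_le_sum key

/-- with a further charge `c` which meets exactly the near set -/
theorem qf_add_ge (I : Finset ι) (M : ι → ι → Prop) [DecidableRel M] {φ : ι → ℤ} {N : Finset ι}
    (hN : N ⊆ I) (hM : ∀ k ∈ N, ∀ l ∈ N, M k l) (hr : ∀ k ∈ I, M k k) (h0 : ∀ k ∈ I, 0 ≤ φ k)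
    (c : ℤ) :
    (c + ∑ k ∈ N, φ k) ^ 2 + ∑ k ∈ I \ N, φ k ^ 2 ≤
      qf I M φ + 2 * c * ∑ k ∈ N, φ k + c ^ 2 := by
  have h1 := qf_ge I M hN hM hr h0
  nlinarith

/-- the form with the further charge is nonnegative -/
theorem qf_add_nonneg (I : Finset ι) (M : ι → ι → Prop) [DecidableRel M] {φ : ι → ℤ} {N : Finset ι}
    (hN : N ⊆ I) (hM : ∀ k ∈ N, ∀ l ∈ N, M k l) (hr : ∀ k ∈ I, M k k) (h0 : ∀ k ∈ I, 0 ≤ φ k)
    (c : ℤ) : 0 ≤ qf I M φ + 2 * c * ∑ k ∈ N, φ k + c ^ 2 := by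
  refine le_trans ?_ (qf_add_ge I M hN hM hr h0 c)
  exact add_nonneg (sq_nonneg _) (sum_nonneg fun k _ => sq_nonneg _)

/-- if the form vanishes -/
theorem qf_add_zero (I : Finset ι) (M : ι → ι → Prop) [DecidableRel M] {φ : ι → ℤ} {N : Finset ι}
    (hN : N ⊆ I) (hM : ∀ k ∈ N, ∀ l ∈ N, M k l) (hr : ∀ k ∈ I, M k k) (h0 : ∀ k ∈ I, 0 ≤ φ k)
    {c : ℤ} (h : qf I M φ + 2 * c * ∑ k ∈ N, φ k + c ^ 2 ≤ 0) :
    c + ∑ k ∈ N, φ k = 0 ∧ ∀ k ∈ I, k ∉ N → φ k = 0 := by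
  have h1 := qf_add_ge I M hN hM hr h0 c
  have h2 : 0 ≤ ∑ k ∈ I \ N, φ k ^ 2 := sum_nonneg fun k _ => sq_nonneg _
  have h3 := sq_nonneg (c + ∑ k ∈ N, φ k)
  refine ⟨pow_eq_zero_iff (two_ne_zero) |>.1 (by linarith), fun k hk hkN => ?_⟩
  have h4 := (sum_eq_zero_iff_of_nonneg (fun k _ => sq_nonneg (φ k))).1
    (show ∑ k ∈ I \ N, φ k ^ 2 = 0 by linarith) k (mem_sdiff.2 ⟨hk, hkN⟩)
  exact pow_eq_zero_iff (two_ne_zero) |>.1 h4

/-- if the form vanishes and the further charge is nonnegative, all charges vanish -/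
theorem qf_add_zero' (I : Finset ι) (M : ι → ι → Prop) [DecidableRel M] {φ : ι → ℤ} {N : Finset ι}
    (hN : N ⊆ I) (hM : ∀ k ∈ N, ∀ l ∈ N, M k l) (hr : ∀ k ∈ I, M k k) (h0 : ∀ k ∈ I, 0 ≤ φ k)
    {c : ℤ} (hc : 0 ≤ c) (h : qf I M φ + 2 * c * ∑ k ∈ N, φ k + c ^ 2 ≤ 0) :
    c = 0 ∧ ∀ k ∈ I, φ k = 0 := by
  obtain ⟨h1, h2⟩ := qf_add_zero I M hN hM hr h0 h
  have h3 : 0 ≤ ∑ k ∈ N, φ k := sum_nonneg fun k hk => h0 k (hN hk)
  refine ⟨by omega, fun k hk => ?_⟩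
  by_cases hkN : k ∈ N
  · exact (sum_eq_zero_iff_of_nonneg (fun k hk => h0 k (hN hk))).1 (by omega) k hkN
  · exact h2 k hk hkN

/-- sum over pairs of charged elements, grouped by their sites -/
theorem qf_fiber {α : Type*} [DecidableEq α] (S : Finset α) (I : Finset ι) (f : α → ι)
    (hf : ∀ z ∈ S, f z ∈ I) (ε : α → ℤ) (M : ι → ι → Prop) [DecidableRel M] :
    ∑ z ∈ S, ∑ z' ∈ S, (if M (f z) (f z') then ε z * ε z' else 0) =
      qf I M (fun k => ∑ z ∈ S.filter (fun z => f z = k), ε z) := by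
  unfold qf
  have e1 : ∀ g : α → ℤ, ∑ z ∈ S, g z = ∑ k ∈ I, ∑ z ∈ S.filter (fun z => f z = k), g z :=
    fun g => (sum_fiberwise_of_maps_to hf g).symm
  rw [e1]
  refine sum_congr rfl fun k _ => ?_
  have e2 : ∀ z ∈ S.filter (fun z => f z = k),
      ∑ z' ∈ S, (if M (f z) (f z') then ε z * ε z' else 0) =
        ε z * ∑ l ∈ I, ∑ z' ∈ S.filter (fun z => f z = l), (if M k l then ε z' else 0) := by
    intro z hz
    rw [e1, mul_sum]
    refine sum_congr rfl fun l _ => ?_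
    rw [mul_sum]
    refine sum_congr rfl fun z' hz' => ?_
    rw [(mem_filter.1 hz).2, (mem_filter.1 hz').2]
    split_ifs <;> ring
  rw [sum_congr rfl e2, ← sum_mul, mul_sum]
  refine sum_congr rfl fun l _ => ?_
  by_cases hkl : M k l
  · simp only [if_pos hkl]
  · simp only [if_neg hkl, sum_const_zero, mul_zero]

/-- one further index -/
theorem qf_insert {I : Finset ι} (M : ι → ι → Prop) [DecidableRel M] (hs : ∀ k l, M k l → M l k)
    {e : ι} (he : e ∉ I) (hr : M e e) (φ : ι → ℤ) :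
    qf (insert e I) M φ = qf I M φ + 2 * φ e * ∑ k ∈ I.filter (fun k => M e k), φ k + φ e ^ 2 := by
  unfold qf
  rw [sum_insert he, sum_insert he, if_pos hr]
  have e1 : ∀ k ∈ I, ∑ l ∈ insert e I, (if M k l then φ k * φ l else 0) =
      (if M e k then φ k * φ e else 0) + ∑ l ∈ I, if M k l then φ k * φ l else 0 := by
    intro k _
    rw [sum_insert he]
    congr 1
    exact if_congr ⟨hs k e, hs e k⟩ rfl rfl
  rw [sum_congr rfl e1, sum_add_distrib, sum_filter, mul_sum]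
  have e2 : ∑ k ∈ I, (if M e k then φ e * φ k else 0) =
      ∑ k ∈ I, (if M e k then φ k * φ e else 0) :=
    sum_congr rfl fun k _ => by rw [mul_comm]
  have e3 : ∑ k ∈ I, 2 * φ e * (if M e k then φ k else 0) =
      2 * ∑ k ∈ I, (if M e k then φ k * φ e else 0) := by
    rw [mul_sum]
    refine sum_congr rfl fun k _ => ?_
    split_ifs <;> ring
  rw [e2, e3]
  ring

end Pool.Agent.GaussPoset.So
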