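import Pool.Agent.W_448t6_h16.TD
import Pool.Agent.W_448s6_h67.PcC

/-!
# S9 (MP_448cb3_co): from the second order identity at the window `j - 1` to the input of T6
-/

namespace Pool.Agent.GaussPoset.Win

set_option linter.unusedSectionVars false

open Finset

universe u

variable {P : Type u} [Fintype P] [PartialOrder P] [DecidableEq P] {r i j m : ℕ} {t : P}
  {lo hi : ℕ → ℕ} {x : ℕ → ℕ → P}

/-- reversal of a row -/
lemma Rw.rev {x : ℕ → P} (S : Rw P j t m x) : Rw P j t m (fun a => x (m - a)) where
  lev_x := fun a _ => S.lev_x (m - a) (by omega)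
  le_t := fun a _ => S.le_t (m - a) (by omega)
  inj := fun a b ha hb he => by
    have := S.inj (m - a) (m - b) (by omega) (by omega) he
    omega
  surj := fun y h1 h2 => by
    obtain ⟨a, ha, hx⟩ := S.surj y h1 h2
    exact ⟨m - a, by omega, by rw [show m - (m - a) = a by omega]; exact hx⟩
  ucv_x := fun a b ha hb hab => by
    rw [S.ucv_x (m - a) (m - b) (by omega) (by omega) (by omega)]
    exact if_congr (by omega) rfl rfl
  far := fun a b hab hb hd => by
    have h1 := S.far (m - b) (m - a) (by omega) (by omega) (by rw [StB_dcv_comm]; exact hd)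
    have hb' : b = m := by omega
    have ha' : a = 0 := by omega
    refine ⟨ha', hb', ?_, ?_⟩
    · show (uc (x (m - 0))).card = 1
      rw [Nat.sub_zero]
      exact h1.2.2.2
    · show (uc (x (m - m))).card = 1
      rw [Nat.sub_self]
      exact h1.2.2.1

/-- the number of sites -/
lemma Rw.card_wt {x : ℕ → P} (S : Rw P j t m x) : (St.wt0 j t).card = m + 1 := by
  rw [S.wt_eq]
  unfold SV
  rw [card_image_of_injOn, card_range]
  intro a ha b hb hab
  rw [mem_coe, mem_range] at ha hb
  exact S.inj a b (by omega) (by omega) hab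

/-- at most one element of `PU` hangs at a pair of sites of a component with at least three sites -/
lemma thU_le_one (h : GoodTo P r j) (ht : lev t = 0) (hc : 3 ≤ (St.wt0 j t).card) {v v' : P}
    (hv : v ≤ t) (hu : ucv v v' ≤ 1) : T6N.thU j {v, v'} ≤ 1 := by
  classical
  unfold T6N.thU
  have key : ((PU P j).filter (fun z => (dc z).biUnion (ns j) = {v, v'})).card ≤ 1 := by
    rw [card_le_one]
    intro z hz z' hz'
    rw [mem_filter] at hz hz'
    obtain ⟨hz1, hz2⟩ := hz
    obtain ⟨hz1', hz2'⟩ := hz'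
    rw [T6N.mem_PU] at hz1 hz1'
    obtain ⟨a1, a2, w, a3, a4⟩ := hz1
    obtain ⟨b1, b2, w', b3, b4⟩ := hz1'
    obtain ⟨q, hq⟩ := card_eq_one.1 a2
    obtain ⟨q', hq'⟩ := card_eq_one.1 b2
    have hqw : q = w := by
      have : w ∈ dc z := mem_dc.2 a3
      rw [hq, mem_singleton] at this
      exact this.symm
    subst hqw
    have hqw' : q' = w' := by
      have : w' ∈ dc z' := mem_dc.2 b3
      rw [hq', mem_singleton] at this
      exact this.symm
    subst hqw'
    have lq := lev_cov h.H a3
    have lq' := lev_cov h.H b3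
    rw [hq, singleton_biUnion, T6N.nsu (by omega)] at hz2
    rw [hq', singleton_biUnion, T6N.nsu (by omega)] at hz2'
    -- the two elements of level `j - 1` coincide
    have hv1 : v ∈ dc q := by rw [hz2]; exact mem_insert_self _ _
    have hv2 : v' ∈ dc q := by rw [hz2]; exact mem_insert_of_mem (mem_singleton_self _)
    have hv1' : v ∈ dc q' := by rw [hz2']; exact mem_insert_self _ _
    have hv2' : v' ∈ dc q' := by rw [hz2']; exact mem_insert_of_mem (mem_singleton_self _)
    have hqq : q = q' := by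
      unfold ucv at hu
      exact card_le_one.1 hu q (by
        simp only [mem_filter, mem_univ, true_and]
        exact ⟨mem_dc.1 hv1, mem_dc.1 hv2⟩) q' (by
        simp only [mem_filter, mem_univ, true_and]
        exact ⟨mem_dc.1 hv1', mem_dc.1 hv2'⟩)
    subst hqq
    by_contra hne
    -- coordinates
    obtain ⟨k, rfl⟩ : ∃ k, j = k + 2 := ⟨j - 2, by omega⟩
    obtain ⟨lo, hi, x, C⟩ := comp_exists h ht
    have hqt : q ≤ t := by
      have := h.cov_le (z := v) (v := q) (by
        have := lev_dc h.H hv1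
        omega) ht hv (mem_dc.1 hv1)
      exact this
    have hzt : z ≤ t := h.cov_le (by omega) ht hqt a3
    have hzt' : z' ≤ t := h.cov_le (by omega) ht hqt b3
    obtain ⟨a, ha1, ha2, rfl⟩ := C.surj k (by omega) z (by omega) hzt
    obtain ⟨b, hb1, hb2, rfl⟩ := C.surj k (by omega) z' (by omega) hzt'
    obtain ⟨c, hc1, hc2, rfl⟩ := C.surj (k + 1) (by omega) q (by omega) hqt
    have e1 := (C.cov k (by omega) c a hc1 hc2 ha1 ha2).1 a3
    have e2 := (C.cov k (by omega) c b hc1 hc2 hb1 hb2).1 b3
    have hab : a ≠ b := fun he => hne (by rw [he])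
    have f1 := C.lo_le k (by omega)
    have f2 := C.lo_ge k (by omega)
    have f3 := C.hi_le k (by omega)
    have f4 := C.hi_ge k (by omega)
    -- every element of level `k + 1` is `q`
    have hone : ∀ d, lo (k + 1) ≤ d → d ≤ hi (k + 1) → d = c := by
      intro d hd1 hd2
      by_contra hdc
      have g1 : ∀ p, lo k ≤ p → p ≤ hi k → (p = a ∨ p = b) → lo (k + 1) ≤ p →
          p ≤ hi (k + 1) → p = c := by
        intro p hp1 hp2 hp3 hp4 hp5
        have hcov := (C.cov k (by omega) p p hp4 hp5 hp1 hp2).2 (Or.inl rfl)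
        rcases hp3 with rfl | rfl
        · have : x (k + 1) p ∈ dc (x k p) := mem_dc.2 hcov
          rw [hq, mem_singleton] at this
          exact C.inj' (by omega) hp4 hp5 hc1 hc2 this
        · have : x (k + 1) p ∈ dc (x k p) := mem_dc.2 hcov
          rw [hq', mem_singleton] at this
          exact C.inj' (by omega) hp4 hp5 hc1 hc2 this
      have g2 : ∀ p, lo k ≤ p → p ≤ hi k → (p = a ∨ p = b) → lo (k + 1) ≤ p + 1 →
          p + 1 ≤ hi (k + 1) → p + 1 = c := by
        intro p hp1 hp2 hp3 hp4 hp5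
        have hcov := (C.cov k (by omega) (p + 1) p hp4 hp5 hp1 hp2).2 (Or.inr rfl)
        rcases hp3 with rfl | rfl
        · have : x (k + 1) (p + 1) ∈ dc (x k p) := mem_dc.2 hcov
          rw [hq, mem_singleton] at this
          exact C.inj' (by omega) hp4 hp5 hc1 hc2 this
        · have : x (k + 1) (p + 1) ∈ dc (x k p) := mem_dc.2 hcov
          rw [hq', mem_singleton] at this
          exact C.inj' (by omega) hp4 hp5 hc1 hc2 this
      have g3 := g1 a ha1 ha2 (Or.inl rfl)
      have g4 := g1 b hb1 hb2 (Or.inr rfl)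
      have g5 := g2 a ha1 ha2 (Or.inl rfl)
      have g6 := g2 b hb1 hb2 (Or.inr rfl)
      omega
    have hlh : lo (k + 1) = hi (k + 1) := by
      have h1 := hone (lo (k + 1)) le_rfl (C.lohi (k + 1) (by omega))
      have h2 := hone (hi (k + 1)) (C.lohi (k + 1) (by omega)) le_rfl
      omega
    have S := C.rw_row h (by omega) ht
    have f5 := C.lo_le (k + 1) (by omega)
    have f6 := C.hi_ge (k + 1) (by omega)
    have hcard := S.card_wt
    have e : k + 1 + 1 = k + 2 := rfl
    rw [e] at hcard f5 f6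
    omega
  exact_mod_cast key

/-- the conditions on the hanging elements in a rotated row -/
lemma rot_case (h : GoodTo P r (i + 1)) (ht : lev t = 0) {X : ℕ → P} (R : RotR P (i + 1) t m X)
    (hX : ∀ a, 1 ≤ a → a < m → (uc (X a)).card = 2)
    (hN : ∀ z w : P, z ∈ PD P (i + 1) → z ≤ t → z ⋖ w → ∃ v, w ⋖ v ∧ (uc v).card ≠ 2) :
    T6case P (i + 1) t := by
  classical
  have hm := R.hm
  have S := R.row
  refine Or.inr (Or.inr ⟨m, X, R, ?_, ?_⟩)
  · unfold T6N.thD
    rw [show (0 : ℤ) = ((0 : ℕ) : ℤ) by rfl, Nat.cast_inj, card_eq_zero, filter_eq_empty_iff]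
    intro z hz hs
    obtain ⟨h1, h2, w, hw, h3⟩ := T6N.mem_PD.1 hz
    rw [T6N.PD_site hz hw h.H] at hs
    have hw1 : w ⋖ X 1 := by
      rw [← mem_uc, hs]
      exact mem_insert_self _ _
    obtain ⟨v, hv, hv2⟩ := hN z w hz (hw.le.trans (hw1.le.trans (S.le_t 1 (by omega)))) hw
    rw [← mem_uc, hs, mem_insert, mem_singleton] at hv
    rcases hv with rfl | rfl
    · exact hv2 (hX 1 le_rfl (by omega))
    · exact hv2 (hX 2 (by omega) (by omega))
  · refine thU_le_one h ht (by rw [S.card_wt]; omega) (S.le_t _ (by omega)) ?_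
    rw [S.ucv_x (m - 1) m (by omega) le_rfl (by omega)]
    split_ifs <;> omega

/-- S9, CONCLUSION: if all neighbouring double-ups of the first bad level `i + 1` have a common lower
cover, and nothing hangs below such a cover, then the component is as required by T6 -/
theorem S9_case (h : GoodTo P r (i + 1)) (hi1 : 1 ≤ i) (hr : i + 2 ≤ r)
    (hno : ∀ z : P, lev z = i + 2 → ¬ Hul.Jn z) (ht : lev t = 0)
    (hφ : 4 ≤ (St.wt0 (i + 1) t).card → ∀ v v' : P, lev v = i + 1 → lev v' = i + 1 → v ≤ t →
      v' ≤ t → (uc v).card = 2 → (uc v').card = 2 → ucv v v' = 1 → dcv v v' = 1)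
    (hN : 4 ≤ (St.wt0 (i + 1) t).card → ∀ z w : P, z ∈ PD P (i + 1) → z ≤ t → z ⋖ w →
      ∃ v, w ⋖ v ∧ (uc v).card ≠ 2) : T6case P (i + 1) t := by
  classical
  obtain ⟨lo, hi, x, C⟩ := comp_exists h ht
  have S := C.rw_row h hi1 ht
  have hlohi := C.lohi (i + 1) le_rfl
  obtain ⟨c, β, hpc, hdef, -, -⟩ := S6_pieces h hi1 hr hno ht C
  set m := hi (i + 1) - lo (i + 1) with hm
  set X : ℕ → P := fun a => x (i + 1) (lo (i + 1) + a) with hX
  have hcard := S.card_wt
  by_cases h4 : 4 ≤ (St.wt0 (i + 1) t).card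
  swap
  · exact Or.inr (Or.inl (by omega))
  have hm3 : 3 ≤ m := by omega
  have hφ := hφ h4
  have hN := hN h4
  have f1 := C.lo_le i (by omega)
  have f2 := C.lo_ge i (by omega)
  have f3 := C.hi_le i (by omega)
  have f4 := C.hi_ge i (by omega)
  -- inner elements are double-ups
  have hdb : ∀ a, 1 ≤ a → a < m → (uc (X a)).card = 2 := by
    intro a h1 h2
    show (uc (x (i + 1) (lo (i + 1) + a))).card = 2
    rw [C.uc_two h ht (k := i) (by omega) (by omega) (by omega)]
    omega
  have hD : ∀ a b, a < b → b ≤ m → Df (i + 1) {X a, X b} =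
      if b = a + 1 then c a else if a = 0 ∧ b = m then β else 0 := by
    intro a b hab hb
    rw [Df_pair h.H (S.lev_x a (by omega)) (fun he => by
      have := S.inj a b (by omega) hb he
      omega)]
    have h1 := hdef (lo (i + 1) + a) (lo (i + 1) + b) (by omega) (by omega) (by omega)
    rw [h1]
    by_cases h2 : b = a + 1
    · rw [if_pos (by omega), if_pos h2, show lo (i + 1) + a - lo (i + 1) = a by omega]
    · rw [if_neg (by omega), if_neg h2]
      exact if_congr (by omega) rfl rfl
  have hc0 : ∀ k, 1 ≤ k → k + 1 < m → c k = 0 := by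
    intro k h1 h2
    have e1 := hD k (k + 1) (by omega) (by omega)
    rw [if_pos rfl, Df_pair h.H (S.lev_x k (by omega)) (fun he => by
      have := S.inj k (k + 1) (by omega) (by omega) he
      omega)] at e1
    have e2 := S.ucv_x k (k + 1) (by omega) (by omega) (by omega)
    rw [if_pos (Or.inl rfl)] at e2
    have e3 := hφ (X k) (X (k + 1)) (S.lev_x k (by omega)) (S.lev_x (k + 1) (by omega))
      (S.le_t k (by omega)) (S.le_t (k + 1) (by omega)) (hdb k h1 (by omega))
      (hdb (k + 1) (by omega) h2) e2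
    rw [e2, e3] at e1
    rw [← e1]
    norm_num
  rcases hpc with ⟨p1, p2⟩ | ⟨-, p1, p2, p3⟩ | ⟨-, p1, p2, p3⟩ | ⟨-, -, -, p3, -⟩ |
    ⟨-, -, -, p3, -⟩ | ⟨-, -, -, p3, -⟩ | ⟨p1, -⟩ | ⟨p1, -, -, p3, -⟩
  · -- natural
    left
    rw [natT_iff h.H, S.wt_eq]
    have key : ∀ a b, a < b → b ≤ m → Df (i + 1) {X a, X b} = 0 := by
      intro a b hab hb
      rw [hD a b hab hb, p1]
      split_ifs
      · exact p2 a (by omega)
      · rfl
      · rfl
    intro u hu w hw huw
    unfold SV at hu hw
    obtain ⟨a, ha, rfl⟩ := mem_image.1 hu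
    obtain ⟨b, hb, rfl⟩ := mem_image.1 hw
    rw [mem_range] at ha hb
    rcases Nat.lt_trichotomy a b with h1 | h1 | h1
    · exact key a b h1 (by omega)
    · rw [h1] at huw
      exact absurd rfl huw
    · rw [pair_comm]
      exact key b a h1 (by omega)
  · -- rotation
    have R : RotR P (i + 1) t m X := by
      refine ⟨S, hm3, ?_, ?_, ?_⟩
      · rw [hD 0 m (by omega) le_rfl, if_neg (by omega), if_pos ⟨rfl, rfl⟩, p1]
      · rw [hD 0 1 (by omega) (by omega), if_pos rfl, p2]
      · intro k h1 h2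
        rw [hD k (k + 1) (by omega) (by omega), if_pos rfl]
        exact p3 k h1 h2
    exact rot_case h ht R hdb hN
  · -- the mirror image
    have R : RotR P (i + 1) t m (fun a => X (m - a)) := by
      refine ⟨S.rev, hm3, ?_, ?_, ?_⟩
      · show Df (i + 1) {X (m - 0), X (m - m)} = 1
        rw [Nat.sub_zero, Nat.sub_self, pair_comm, hD 0 m (by omega) le_rfl, if_neg (by omega),
          if_pos ⟨rfl, rfl⟩, p1]
      · show Df (i + 1) {X (m - 0), X (m - 1)} = -1
        rw [Nat.sub_zero, pair_comm, hD (m - 1) m (by omega) le_rfl, if_pos (by omega), p2]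
      · intro k h1 h2
        show Df (i + 1) {X (m - k), X (m - (k + 1))} = 0
        rw [pair_comm, hD (m - (k + 1)) (m - k) (by omega) (by omega), if_pos (by omega)]
        exact p3 (m - (k + 1)) (by omega)
    refine rot_case h ht R ?_ hN
    intro a h1 h2
    exact hdb (m - a) (by omega) (by omega)
  · have := hc0 1 le_rfl (by omega)
    omega
  · have := hc0 (m - 2) (by omega) (by omega)
    omega
  · have := hc0 1 le_rfl (by omega)
    omega
  · omega
  · have := hc0 1 le_rfl (by omega)
    omega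

end Pool.Agent.GaussPoset.Win
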