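import Pool.Agent.W_448so_h39.FA
import Pool.Agent.W_448so_h39.FB
import Pool.Agent.W_448al_h63.LI

/-!
# S9 (MP_448cb3_co): the charged elements and their sites
-/

namespace Pool.Agent.GaussPoset.Win

set_option linter.unusedSectionVars false

open Finset

universe u

variable {P : Type u} [Fintype P] [PartialOrder P] [DecidableEq P] {r i j : ℕ} {t : P}
  {lo hi : ℕ → ℕ} {x : ℕ → ℕ → P} {S : Finset P}

/-- the sites comparable to an element -/
noncomputable def sit (i : ℕ) (z : P) : Finset P := sts i z ∪ stD i z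

/-- the charged elements of a part -/
noncomputable def Chs (i : ℕ) (S : Finset P) : Finset P := ZL i S ∪ ZU i S ∪ FL i S ∪ FU' i S

/-- the charge -/
noncomputable def chg (i : ℕ) (S : Finset P) (z : P) : ℤ := if z ∈ ZU i S ∪ FL i S then 1 else -1

/-- the sum over the ordered pairs of charged elements with meeting sites -/
noncomputable def QQ (i : ℕ) (S : Finset P) : ℤ :=
  ∑ z ∈ Chs i S, ∑ z' ∈ Chs i S,
    if Disjoint (sit i z) (sit i z') then 0 else chg i S z * chg i S z'

lemma lev_strict (H : Gr P r) {v w : P} (h : v < w) : lev w < lev v := by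
  obtain ⟨u, h1, h2⟩ := exists_covBy_le_of_lt h
  have h3 := lev_cov H h1
  have h4 := lev_anti h2
  omega

lemma sit_low (H : Gr P r) {z : P} (h : i ≤ lev z) : sit i z = sts i z := by
  have h1 : stD i z = ∅ := by
    rw [eq_empty_iff_forall_notMem]
    intro v hv
    rw [mem_stD] at hv
    have := lev_strict H hv.2
    omega
  unfold sit
  rw [h1, union_empty]

lemma sit_upp (H : Gr P r) {z : P} (h : lev z ≤ i) : sit i z = stD i z := by
  have h1 : sts i z = ∅ := by
    rw [eq_empty_iff_forall_notMem]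
    intro v hv
    rw [mem_sts] at hv
    have := lev_strict H hv.2
    omega
  unfold sit
  rw [h1, empty_union]

lemma lev_FL (H : Gr P r) {w : P} (hw : w ∈ FL i S) : lev w = i + 3 := by
  obtain ⟨-, z, hz, hu⟩ := mem_FL.1 hw
  have h1 : w ⋖ z := by
    rw [← mem_uc, hu]
    exact mem_singleton_self z
  have h2 := lev_cov H h1
  have h3 := lev_PD hz
  omega

lemma lev_FU (H : Gr P r) {w : P} (hw : w ∈ FU' i S) : lev w + 3 = i := by
  obtain ⟨-, z, hz, hu⟩ := mem_FU'.1 hw
  have h1 : z ⋖ w := by
    rw [← mem_dc, hu]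
    exact mem_singleton_self z
  have h2 := lev_cov H h1
  have h3 := lev_PU hz
  omega

/-- the sites of a lower chain -/
lemma sit_FL (H : Gr P r) {w z : P} (hz : z ∈ PD P i) (hu : uc w = {z}) :
    sit i w = sts i z := by
  have h1 : w ⋖ z := by
    rw [← mem_uc, hu]
    exact mem_singleton_self z
  have h2 := lev_cov H h1
  have h3 := lev_PD hz
  rw [sit_low H (by omega)]
  ext v
  rw [mem_sts, mem_sts]
  constructor
  · rintro ⟨h4, h5⟩
    refine ⟨h4, ?_⟩
    obtain ⟨u, h6, h7⟩ := exists_covBy_le_of_lt h5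
    rw [← mem_uc, hu, mem_singleton] at h6
    subst h6
    refine lt_of_le_of_ne h7 ?_
    rintro rfl
    omega
  · rintro ⟨h4, h5⟩
    exact ⟨h4, h1.lt.trans h5⟩

/-- the sites of an upper chain -/
lemma sit_FU (H : Gr P r) {w z : P} (hz : z ∈ PU P i) (hu : dc w = {z}) :
    sit i w = stD i z := by
  have h1 : z ⋖ w := by
    rw [← mem_dc, hu]
    exact mem_singleton_self z
  have h2 := lev_cov H h1
  have h3 := lev_PU hz
  rw [sit_upp H (by omega)]
  ext v
  rw [mem_stD, mem_stD]
  constructor
  · rintro ⟨h4, h5⟩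
    refine ⟨h4, ?_⟩
    obtain ⟨u, h6, h7⟩ := exists_le_covBy_of_lt h5
    rw [← mem_dc, hu, mem_singleton] at h7
    subst h7
    refine lt_of_le_of_ne h6 ?_
    rintro rfl
    omega
  · rintro ⟨h4, h5⟩
    exact ⟨h4, h5.trans h1.lt⟩

/-- sums over the charged elements -/
lemma sum_chg (H : Gr P r) (p : P → Prop) [DecidablePred p] :
    ∑ z ∈ (Chs i S).filter p, chg i S z =
      ((ZU i S).filter p).card + ((FL i S).filter p).card - ((ZL i S).filter p).card -
        ((FU' i S).filter p).card := by
  have d1 : Disjoint (ZL i S) (ZU i S) := by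
    rw [disjoint_left]
    intro z h1 h2
    have := (mem_ZL.1 h1).2.1
    have := (mem_ZU.1 h2).2.1
    omega
  have d2 : Disjoint (ZL i S ∪ ZU i S) (FL i S) := by
    rw [disjoint_left]
    intro z h1 h2
    have h3 := lev_FL H h2
    rcases mem_union.1 h1 with h1 | h1
    · have := (mem_ZL.1 h1).2.1
      omega
    · have := (mem_ZU.1 h1).2.1
      omega
  have d3 : Disjoint (ZL i S ∪ ZU i S ∪ FL i S) (FU' i S) := by
    rw [disjoint_left]
    intro z h1 h2
    have h3 := lev_FU H h2
    rcases mem_union.1 h1 with h1 | h1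
    · rcases mem_union.1 h1 with h1 | h1
      · have := (mem_ZL.1 h1).2.1
        omega
      · have := (mem_ZU.1 h1).2.1
        omega
    · have := lev_FL H h1
      omega
  have c1 : ∀ z ∈ (ZL i S).filter p, chg i S z = -1 := by
    intro z hz
    unfold chg
    rw [if_neg]
    intro h1
    have h2 := (mem_ZL.1 (mem_filter.1 hz).1).2.1
    rcases mem_union.1 h1 with h1 | h1
    · have := (mem_ZU.1 h1).2.1
      omega
    · have := lev_FL H h1
      omega
  have c2 : ∀ z ∈ (ZU i S).filter p, chg i S z = 1 := by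
    intro z hz
    unfold chg
    rw [if_pos (mem_union_left _ (mem_filter.1 hz).1)]
  have c3 : ∀ z ∈ (FL i S).filter p, chg i S z = 1 := by
    intro z hz
    unfold chg
    rw [if_pos (mem_union_right _ (mem_filter.1 hz).1)]
  have c4 : ∀ z ∈ (FU' i S).filter p, chg i S z = -1 := by
    intro z hz
    unfold chg
    rw [if_neg]
    intro h1
    have h2 := lev_FU H (mem_filter.1 hz).1
    rcases mem_union.1 h1 with h1 | h1
    · have := (mem_ZU.1 h1).2.1
      omega
    · have := lev_FL H h1
      omega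
  unfold Chs
  rw [filter_union, sum_union (disjoint_filter_filter d3), filter_union,
    sum_union (disjoint_filter_filter d2), filter_union, sum_union (disjoint_filter_filter d1),
    sum_congr rfl c1, sum_congr rfl c2, sum_congr rfl c3, sum_congr rfl c4]
  simp only [sum_const, nsmul_eq_mul, mul_one, mul_neg]
  ring

/-- three consecutive sites -/
def Tr (x : ℕ → ℕ → P) (i a : ℕ) : Finset P := {x i (a - 1), x i a, x i (a + 1)}

/-- membership in a triple -/
lemma mem_Tr (C : Comp P t j lo hi x) (hij : i ≤ j) {a c : ℕ} (ha : lo i < a) (ha' : a < hi i)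
    (hc : lo i ≤ c) (hc' : c ≤ hi i) : x i c ∈ Tr x i a ↔ a ≤ c + 1 ∧ c ≤ a + 1 := by
  unfold Tr
  simp only [mem_insert, mem_singleton]
  constructor
  · rintro (h | h | h)
    · have := C.inj' hij hc hc' (by omega) (by omega) h
      omega
    · have := C.inj' hij hc hc' (by omega) (by omega) h
      omega
    · have := C.inj' hij hc hc' (by omega) (by omega) h
      omega
  · rintro ⟨h1, h2⟩
    rcases (show c = a - 1 ∨ c = a ∨ c = a + 1 by omega) with rfl | rfl | rfl
    · exact Or.inl rfl
    · exact Or.inr (Or.inl rfl)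
    · exact Or.inr (Or.inr rfl)

lemma Tr_sub {a : ℕ} {v : P} (hv : v ∈ Tr x i a) (ha : lo i < a) (ha' : a < hi i) :
    ∃ c, lo i ≤ c ∧ c ≤ hi i ∧ v = x i c := by
  unfold Tr at hv
  simp only [mem_insert, mem_singleton] at hv
  rcases hv with rfl | rfl | rfl
  · exact ⟨a - 1, by omega, by omega, rfl⟩
  · exact ⟨a, by omega, by omega, rfl⟩
  · exact ⟨a + 1, by omega, by omega, rfl⟩

lemma card_Tr (C : Comp P t j lo hi x) (hij : i ≤ j) {a : ℕ} (ha : lo i < a) (ha' : a < hi i) :
    (Tr x i a).card = 3 := by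
  unfold Tr
  rw [card_eq_three]
  refine ⟨_, _, _, ?_, ?_, ?_, rfl⟩
  · exact C.inj i hij _ _ (by omega) (by omega) (by omega)
  · exact C.inj i hij _ _ (by omega) (by omega) (by omega)
  · exact C.inj i hij _ _ (by omega) (by omega) (by omega)

lemma Tr_inj (C : Comp P t j lo hi x) (hij : i ≤ j) {a b : ℕ} (ha : lo i < a) (ha' : a < hi i)
    (hb : lo i < b) (hb' : b < hi i) (h : Tr x i a = Tr x i b) : a = b := by
  have h1 : x i (a - 1) ∈ Tr x i b := by
    rw [← h]
    exact (mem_Tr C hij ha ha' (by omega) (by omega)).2 (by omega)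
  have h2 : x i (a + 1) ∈ Tr x i b := by
    rw [← h]
    exact (mem_Tr C hij ha ha' (by omega) (by omega)).2 (by omega)
  rw [mem_Tr C hij hb hb' (by omega) (by omega)] at h1 h2
  omega

end Pool.Agent.GaussPoset.Win
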