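import Pool.Agent.W_448so_h39.FE
import Pool.Agent.W_448cr_h63.CH

/-!
# S9 (MP_448cb3_co): the charged triples in coordinates
-/

namespace Pool.Agent.GaussPoset.Win

set_option linter.unusedSectionVars false

open Finset

universe u

variable {P : Type u} [Fintype P] [PartialOrder P] [DecidableEq P] {r i j : ℕ} {t : P}
  {lo hi : ℕ → ℕ} {x : ℕ → ℕ → P} {S : Finset P}

/-- the sites below an element two levels above the window -/
lemma stD_two (C : Comp P t j lo hi x) (h : GoodTo P r j) (ht : lev t = 0) {k c : ℕ}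
    (hk : k + 2 ≤ j) (h1 : lo k ≤ c) (h2 : c ≤ hi k) (h3 : lo (k + 2) ≤ c)
    (h4 : c + 2 ≤ hi (k + 2)) : stD (k + 2) (x k c) = Tr x (k + 2) (c + 1) := by
  ext v
  rw [mem_stD]
  unfold Tr
  simp only [mem_insert, mem_singleton, Nat.add_sub_cancel]
  constructor
  · rintro ⟨hv, hlt⟩
    obtain ⟨a, a1, a2, rfl⟩ := C.surj (k + 2) hk v hv (hlt.le.trans (C.le_t k (by omega) c h1 h2))
    have := (C.lt_two h ht hk a1 a2 h1 h2).1 hlt
    rcases (show a = c ∨ a = c + 1 ∨ a = c + 1 + 1 by omega) with rfl | rfl | rfl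
    · exact Or.inl rfl
    · exact Or.inr (Or.inl rfl)
    · exact Or.inr (Or.inr rfl)
  · have key : ∀ a, c ≤ a → a ≤ c + 2 → lev (x (k + 2) a) = k + 2 ∧ x (k + 2) a < x k c :=
      fun a ha ha' => ⟨C.lev_x (k + 2) hk a (by omega) (by omega),
        (C.lt_two h ht hk (by omega) (by omega) h1 h2).2 ⟨ha, ha'⟩⟩
    rintro (rfl | rfl | rfl)
    · exact key c (by omega) (by omega)
    · exact key (c + 1) (by omega) (by omega)
    · exact key (c + 1 + 1) (by omega) (by omega)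

/-- upper triples -/
lemma ZU_spec (C : Comp P t (i + 1) lo hi x) (h : GoodTo P r (i + 1)) (ht : lev t = 0)
    (hS : ∀ y, lev y ≤ i + 2 → (y ∈ S ↔ y ≤ t)) {z : P} (hz : z ∈ ZU i S) :
    ∃ a, lo i < a ∧ a < hi i ∧ sit i z = Tr x i a ∧ z = x (i - 2) (a - 1) := by
  obtain ⟨h1, h2, h3⟩ := mem_ZU.1 hz
  obtain ⟨k, rfl⟩ : ∃ k, i = k + 2 := ⟨i - 2, by omega⟩
  have hzt := (hS z (by omega)).1 h1
  obtain ⟨c, c1, c2, rfl⟩ := C.surj k (by omega) z (by omega) hzt
  have h4 := (C.dn_three h ht (by omega) c1 c2).1 h3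
  refine ⟨c + 1, by omega, by omega, ?_, by simp⟩
  rw [sit_upp h.H (by omega)]
  exact stD_two C h ht (by omega) c1 c2 h4.1 h4.2

lemma ZU_mem (C : Comp P t (i + 1) lo hi x) (h : GoodTo P r (i + 1)) (ht : lev t = 0)
    (hS : ∀ y, lev y ≤ i + 2 → (y ∈ S ↔ y ≤ t)) {a : ℕ} (ha : lo i < a) (ha' : a < hi i) :
    x (i - 2) (a - 1) ∈ ZU i S ∧ sit i (x (i - 2) (a - 1)) = Tr x i a := by
  have hb := C.hi_bd i (by omega)
  obtain ⟨k, rfl⟩ : ∃ k, i = k + 2 := ⟨i - 2, by omega⟩
  rw [Nat.add_sub_cancel]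
  have e1 := C.lo_le k (by omega)
  have e4 := C.hi_ge k (by omega)
  have e5 : lo (k + 1) ≤ lo (k + 2) := C.lo_le (k + 1) (by omega)
  have e8 : hi (k + 2) ≤ hi (k + 1) + 1 := C.hi_ge (k + 1) (by omega)
  have c1 : lo k ≤ a - 1 := by omega
  have c2 : a - 1 ≤ hi k := by omega
  have hl := C.lev_x k (by omega) (a - 1) c1 c2
  refine ⟨mem_ZU.2 ⟨(hS _ (by omega)).2 (C.le_t k (by omega) _ c1 c2), by omega,
    (C.dn_three h ht (by omega) c1 c2).2 (by omega)⟩, ?_⟩
  rw [sit_upp h.H (by omega), stD_two C h ht (by omega) c1 c2 (by omega) (by omega),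
    Nat.sub_add_cancel (by omega)]

/-- exactly one upper triple at every three consecutive sites -/
lemma card_ZU_Tr (C : Comp P t (i + 1) lo hi x) (h : GoodTo P r (i + 1)) (ht : lev t = 0)
    (hS : ∀ y, lev y ≤ i + 2 → (y ∈ S ↔ y ≤ t)) {a : ℕ} (ha : lo i < a) (ha' : a < hi i) :
    ((ZU i S).filter (fun z => sit i z = Tr x i a)).card = 1 := by
  rw [card_eq_one]
  refine ⟨x (i - 2) (a - 1), ?_⟩
  ext z
  rw [mem_filter, mem_singleton]
  constructor
  · rintro ⟨h1, h2⟩
    obtain ⟨b, b1, b2, b3, b4⟩ := ZU_spec C h ht hS h1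
    rw [b3] at h2
    have := Tr_inj C (by omega) b1 b2 ha ha' h2
    rw [b4, this]
  · rintro rfl
    exact ZU_mem C h ht hS ha ha'

/-- the sites above a common lower cover of two neighbouring double-ups -/
lemma low_Tr (C : Comp P t (i + 1) lo hi x) (h : GoodTo P r (i + 1)) (ht : lev t = 0)
    (hS : ∀ y, lev y ≤ i + 2 → (y ∈ S ↔ y ≤ t)) {a : ℕ} (ha : lo i < a) (ha' : a < hi i) {z : P}
    (hz : z ⋖ x (i + 1) a) (hz' : z ⋖ x (i + 1) (a + 1)) :
    z ∈ ZL i S ∧ sit i z = Tr x i a := by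
  have f1 := C.lo_ge i (by omega)
  have f2 := C.hi_le i (by omega)
  have hl := C.lev_x (i + 1) le_rfl a (by omega) (by omega)
  have hl2 := lev_cov h.H hz
  have hne := C.inj (i + 1) le_rfl a (a + 1) (by omega) (by omega) (by omega)
  have hu1 := C.uc_eq h ht (k := i) (by omega) ha (by omega)
  have hu2 := C.uc_eq h ht (k := i) (by omega) (a := a + 1) (by omega) (by omega)
  rw [Nat.add_sub_cancel] at hu2
  have huc := StB_uc_pair h.H hz hz' hne
  have hsts : sts i z = Tr x i a := by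
    ext v
    rw [mem_sts_iff h.H (by omega), huc]
    unfold Tr
    simp only [mem_insert, mem_singleton]
    constructor
    · rintro ⟨w, rfl | rfl, hv⟩
      · rw [hu1, mem_insert, mem_singleton] at hv
        rcases hv with rfl | rfl
        · exact Or.inl rfl
        · exact Or.inr (Or.inl rfl)
      · rw [hu2, mem_insert, mem_singleton] at hv
        rcases hv with rfl | rfl
        · exact Or.inr (Or.inl rfl)
        · exact Or.inr (Or.inr rfl)
    · rintro (rfl | rfl | rfl)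
      · exact ⟨_, Or.inl rfl, by rw [hu1]; exact mem_insert_self _ _⟩
      · exact ⟨_, Or.inl rfl, by rw [hu1]; exact mem_insert_of_mem (mem_singleton_self _)⟩
      · exact ⟨_, Or.inr rfl, by rw [hu2]; exact mem_insert_of_mem (mem_singleton_self _)⟩
  refine ⟨mem_ZL.2 ⟨(hS z (by omega)).2 (hz.le.trans (C.le_t (i + 1) le_rfl a (by omega)
    (by omega))), by omega, ?_⟩, ?_⟩
  · rw [← card_sts, hsts]
    exact card_Tr C (by omega) ha ha'
  · rw [sit_low h.H (by omega)]
    exact hsts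

/-- lower triples -/
lemma ZL_spec (C : Comp P t (i + 1) lo hi x) (h : GoodTo P r (i + 1)) (hi1 : 1 ≤ i)
    (ht : lev t = 0) (hS : ∀ y, lev y ≤ i + 2 → (y ∈ S ↔ y ≤ t))
    (hno : ∀ z : P, lev z = i + 2 → ¬ Hul.Jn z) {z : P} (hz : z ∈ ZL i S) :
    ∃ a, lo i < a ∧ a < hi i ∧ sit i z = Tr x i a ∧ z ⋖ x (i + 1) a ∧ z ⋖ x (i + 1) (a + 1) := by
  obtain ⟨h1, h2, h3⟩ := mem_ZL.1 hz
  have hzt := (hS z (by omega)).1 h1
  have hcov : ∀ v, z ⋖ v → v ≤ t := by
    intro v hv
    obtain ⟨s, hs, hs2⟩ := exists_above' (x := v) (j := 0) (Nat.zero_le _)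
    rw [Hul.top_unique (hno z h2) ht hs2 hzt (hv.le.trans hs)]
    exact hs
  have hbU : ∀ v, z ⋖ v → (uc v).card ≤ 2 := fun v _ => uc_card_le h.H v
  have hsts : sts i z = (uc z).biUnion uc := by
    ext v
    rw [mem_sts_iff h.H h2, mem_biUnion]
  rw [← card_sts, hsts] at h3
  rcases uc_card_cases h.H (x := z) (by omega) with h4 | h4
  · exfalso
    obtain ⟨v, hv⟩ := card_eq_one.1 h4
    rw [hv, singleton_biUnion] at h3
    have := uc_card_le h.H v
    omega
  · obtain ⟨v, v', hne, hv⟩ := card_eq_two.1 h4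
    have c1 : z ⋖ v := by rw [← mem_uc, hv]; exact mem_insert_self _ _
    have c2 : z ⋖ v' := by rw [← mem_uc, hv]; exact mem_insert_of_mem (mem_singleton_self _)
    have l1 := lev_cov h.H c1
    have l2 := lev_cov h.H c2
    rw [hv, biUnion_insert, singleton_biUnion] at h3
    have hbU1 := hbU v c1
    have hbU2 := hbU v' c2
    have hun := card_union_add_card_inter (uc v) (uc v')
    rcases (near_level' h hi1).1 z v v' h2 c1 c2 hne with g | ⟨g1, g2, -⟩
    swap
    · omega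
    have hint : (uc v ∩ uc v').card = 1 := by
      classical
      unfold ucv at g
      rw [← g]
      congr 1
      ext y
      simp only [mem_inter, mem_uc, mem_filter, mem_univ, true_and]
    obtain ⟨a, a1, a2, rfl⟩ := C.surj (i + 1) le_rfl v (by omega) (hcov v c1)
    obtain ⟨b, b1, b2, rfl⟩ := C.surj (i + 1) le_rfl v' (by omega) (hcov v' c2)
    have hab : a ≠ b := fun he => hne (by rw [he])
    have hu := C.ucv_eq h ht le_rfl a1 a2 b1 b2 hab
    rw [g] at hu
    have hab' : b = a + 1 ∨ a = b + 1 := by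
      by_contra hcon
      rw [if_neg hcon] at hu
      exact absurd hu (by norm_num)
    have d1 := (C.uc_two h ht (k := i) (by omega) a1 a2).1 (by omega)
    have d2 := (C.uc_two h ht (k := i) (by omega) b1 b2).1 (by omega)
    rcases hab' with rfl | rfl
    · exact ⟨a, d1.1, by omega, (low_Tr C h ht hS d1.1 (by omega) c1 c2).2, c1, c2⟩
    · exact ⟨b, d2.1, by omega, (low_Tr C h ht hS d2.1 (by omega) c2 c1).2, c2, c1⟩

/-- the number of the lower triples at three consecutive sites -/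
lemma card_ZL_Tr (C : Comp P t (i + 1) lo hi x) (h : GoodTo P r (i + 1)) (hi1 : 1 ≤ i)
    (ht : lev t = 0) (hS : ∀ y, lev y ≤ i + 2 → (y ∈ S ↔ y ≤ t))
    (hno : ∀ z : P, lev z = i + 2 → ¬ Hul.Jn z) {a : ℕ} (ha : lo i < a) (ha' : a < hi i) :
    ((ZL i S).filter (fun z => sit i z = Tr x i a)).card =
      dcv (x (i + 1) a) (x (i + 1) (a + 1)) := by
  classical
  unfold dcv
  congr 1
  ext z
  simp only [mem_filter, mem_univ, true_and]
  constructor
  · rintro ⟨h1, h2⟩
    obtain ⟨b, b1, b2, b3, b4, b5⟩ := ZL_spec C h hi1 ht hS hno h1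
    rw [b3] at h2
    have hba := Tr_inj C (by omega) b1 b2 ha ha' h2
    subst hba
    exact ⟨b4, b5⟩
  · rintro ⟨h1, h2⟩
    exact low_Tr C h ht hS ha ha' h1 h2

end Pool.Agent.GaussPoset.Win
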